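import Mathlib

/-!
# Certificate for the orthogonality relation (MP_e6b98e_co)

Polynomial certificate `X M l k` for the order-one recurrence in `l` of the sums
`∑ₖ p(k) d(k) G(k,l)`.
-/

namespace Pool.Agent.MPe6b98e

/-- the quintic factor -/
def Q5 (M l : ℚ) : ℚ :=
  (216*M+13)*l^5+(1884*M+125)*l^4+(-144*M^2+6368*M+465)*l^3+(-744*M^2+10380*M+835)*l^2
    +(-1300*M^2+8108*M+722)*l+(-772*M^2+2404*M+240)

/-- the polynomial part of the certificate -/
def X (M l k : ℚ) : ℚ :=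
  (((((((((((((7776)*l+34560)*l+58464)*l+44940)*l+12668))*M+(((((((3888)*l+26784)*l+72420)*l+96272)*l+63492)*l+17788)*l+1060))*M+(((((((234)*l+1821)*l+5595)*l+8545)*l+6651)*l+2354)*l+240)))*k+(((((((((15552)*l+69120)*l+116928)*l+89880)*l+25336))*M+(((((((-23328)*l+(-178848))*l+(-566280))*l+(-952920))*l+(-902568))*l+(-455932))*l+(-95156)))*M+((((((((-3888)*l+(-43956))*l+(-194550))*l+(-439162))*l+(-543550))*l+(-363626))*l+(-117928))*l+(-13220)))*M+((((((((-234)*l+(-2770))*l+(-13005))*l+(-31455))*l+(-42071))*l+(-30575))*l+(-10690))*l+(-1200))))*k+((((((((((-15552)*l+(-119232))*l+(-348048))*l+(-484032))*l+(-317996))*l+(-77420)))*M+((((((((23328)*l+256608)*l+1158912)*l+2779836)*l+3820448)*l+3006876)*l+1255224)*l+214848))*M+((((((((10260)*l+95118)*l+367257)*l+762531)*l+914669)*l+629583)*l+228082)*l+33020))*M+((((((((533)*l+5010)*l+19475)*l+40335)*l+47602)*l+31455)*l+10390)*l+1200)))*k+((((((((((29376)*l+173664)*l+40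2384)*l+449616)*l+236208)*l+45392))*M+((((((((-44064)*l+(-407376))*l+(-1559568))*l+(-3194128))*l+(-3761944))*l+(-2531696))*l+(-893500))*l+(-125764)))*M+((((((((-3132)*l+(-27324))*l+(-99588))*l+(-198148))*l+(-235240))*l+(-168824))*l+(-68364))*l+(-11980)))*M+((((((((64)*l+1010)*l+5665)*l+15655)*l+23541)*l+19335)*l+7930)*l+1200)))*k+((((((((((4464)*l+34728)*l+102268)*l+142992)*l+93904)*l+22484))*M+((((((((-6696)*l+(-74412))*l+(-337800))*l+(-812316))*l+(-1116220))*l+(-874776))*l+(-361336))*l+(-60692)))*M+((((((((-4323)*l+(-41530))*l+(-166071))*l+(-357511))*l+(-446028))*l+(-321031))*l+(-122610))*l+(-18960)))*M+((((((((-383)*l+(-3644))*l+(-14396))*l+(-30530))*l+(-37397))*l+(-26306))*l+(-9744))*l+(-1440))))*k+((((((((((-7440)*l+(-45368))*l+(-108644))*l+(-126304))*l+(-70084))*l+(-14496)))*M+((((((((11160)*l+105252)*l+411720)*l+864440)*l+1049588)*l+734716)*l+273508)*l+41568))*M+((((((((1229)*l+11852)*l+47588)*l+102950)*l+129311)*l+93998)*l+36432)*l+5760))*M+(0))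

/-- the polynomial identity behind the telescoping -/
theorem cert (M l k : ℚ) :
    (l^2-l-2*M) * Q5 M l *
        (((k-1)*(k*(k+1)-3*M*(2*k+1))) * ((l-k)*(18*k*l+11*(k+l)+7)) * (2*l+2-k) * (2*l+3-k))
      + (2*(2*l^2+9*l+10-M)) * Q5 M (l-1) *
        (((k-1)*(k*(k+1)-3*M*(2*k+1))) * ((l+1-k)*(18*k*(l+1)+11*(k+l+1)+7)) * (k+l+1) * (2*k+1-l))
      = (-2)*(2*k^2+k-M)*(k+l+1)*(2*l+3-k) * X M l (k+1)
        - ((k+1)*(k+2)-2*M)*(2*k+1-l)*(2*k-l) * X M l k := by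
  unfold X Q5
  ring

end Pool.Agent.MPe6b98e
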