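import Mathlib
import Pool.Agent.MPe6b98e.Cert

/-!
# Orthogonality relation (MP_e6b98e_co)
-/

open Finset

namespace Pool.Agent.MPe6b98e

/-- reciprocal factorial on `ℤ` -/
def rf (n : ℤ) : ℚ := if n < 0 then 0 else 1 / (n.toNat.factorial : ℚ)

theorem rf_neg {n : ℤ} (h : n < 0) : rf n = 0 := by simp [rf, h]

theorem rf_nat (n : ℕ) : rf n = 1 / (n.factorial : ℚ) := by
  simp [rf]

theorem rf_mul (n : ℤ) : (n : ℚ) * rf n = rf (n - 1) := by
  rcases lt_trichotomy n 0 with h | h | h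
  · rw [rf_neg h, rf_neg (by omega), mul_zero]
  · subst h
    rw [rf_neg (n := 0 - 1) (by norm_num)]
    simp
  · obtain ⟨m, rfl⟩ : ∃ m : ℕ, n = (m + 1 : ℕ) := ⟨(n - 1).toNat, by omega⟩
    have h1 : (((m + 1 : ℕ) : ℤ) - 1) = (m : ℤ) := by push_cast; ring
    rw [h1, rf_nat, rf_nat, Nat.factorial_succ]
    push_cast
    have : (m.factorial : ℚ) ≠ 0 := by exact_mod_cast m.factorial_ne_zero
    field_simp

/-- closed form of the transformed matrix -/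
def G (k l : ℕ) : ℚ :=
  ((l : ℚ) - k) * (18 * k * l + 11 * (k + l) + 7) * ((k + l).factorial : ℚ) *
    rf (2 * l + 1 - k) * rf (2 * k + 1 - l)

theorem G_skew (k l : ℕ) : G l k = - G k l := by
  unfold G
  rw [add_comm l k]
  ring

theorem G_zero_of_lt {k l : ℕ} (h : 2 * l + 2 ≤ k) : G k l = 0 := by
  unfold G
  rw [rf_neg (n := 2 * (l : ℤ) + 1 - k) (by omega)]
  ring

/-- the coefficient polynomial -/
def pM (M : ℚ) (k : ℕ) : ℚ := ((k : ℚ) - 1) * (k * (k + 1) - 3 * M * (2 * k + 1))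

/-- hypergeometric coefficients -/
def dM (M : ℚ) : ℕ → ℚ
  | 0 => 1
  | k + 1 => (-2) * (2 * (k : ℚ) ^ 2 + k - M) / (((k : ℚ) + 2) * (k + 3) - 2 * M) * dM M k

/-- partial sums -/
def S (M : ℚ) (l N : ℕ) : ℚ := ∑ k ∈ range N, pM M k * dM M k * G k l

/-- the telescoping function -/
def U (M : ℚ) (l k : ℕ) : ℚ :=
  (((k : ℚ) + 1) * (k + 2) - 2 * M) * (2 * k + 1 - l) * (2 * k - l) * X M l k * dM M k *
    ((k + l).factorial : ℚ) * rf (2 * l + 3 - k) * rf (2 * k + 1 - l)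

theorem step (M : ℚ) (hM : M ≤ -1) (l k : ℕ) :
    ((l : ℚ) ^ 2 - l - 2 * M) * Q5 M l * (pM M k * dM M k * G k l)
      + (2 * (2 * (l : ℚ) ^ 2 + 9 * l + 10 - M)) * Q5 M ((l : ℚ) - 1) *
        (pM M k * dM M k * G k (l + 1))
      = U M l (k + 1) - U M l k := by
  have hd : (((k : ℚ) + 2) * (k + 3) - 2 * M) * dM M (k + 1)
      = (-2) * (2 * (k : ℚ) ^ 2 + k - M) * dM M k := by
    have h0 : (((k : ℚ) + 2) * (k + 3) - 2 * M) ≠ 0 := by
      have : (0 : ℚ) ≤ k := Nat.cast_nonneg k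
      nlinarith
    simp only [dM]
    field_simp
  have r1 : rf (2 * (l : ℤ) + 1 - k)
      = (2 * (l : ℚ) + 2 - k) * (2 * (l : ℚ) + 3 - k) * rf (2 * l + 3 - k) := by
    have e1 := rf_mul (2 * (l : ℤ) + 3 - k)
    have e2 := rf_mul (2 * (l : ℤ) + 2 - k)
    rw [show (2 * (l : ℤ) + 3 - k - 1) = 2 * l + 2 - k by ring] at e1
    rw [show (2 * (l : ℤ) + 2 - k - 1) = 2 * l + 1 - k by ring] at e2
    rw [← e2, ← e1]
    push_cast
    ring
  have r2 : rf (2 * ((l + 1 : ℕ) : ℤ) + 1 - k) = rf (2 * l + 3 - k) := by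
    have : (2 * ((l + 1 : ℕ) : ℤ) + 1 - k) = 2 * l + 3 - k := by push_cast; ring
    rw [this]
  have r3 : rf (2 * (k : ℤ) + 1 - l)
      = (2 * (k : ℚ) + 2 - l) * (2 * (k : ℚ) + 3 - l) * rf (2 * k + 3 - l) := by
    have e1 := rf_mul (2 * (k : ℤ) + 3 - l)
    have e2 := rf_mul (2 * (k : ℤ) + 2 - l)
    rw [show (2 * (k : ℤ) + 3 - l - 1) = 2 * k + 2 - l by ring] at e1
    rw [show (2 * (k : ℤ) + 2 - l - 1) = 2 * k + 1 - l by ring] at e2
    rw [← e2, ← e1]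
    push_cast
    ring
  have r4 : rf (2 * (k : ℤ) + 1 - ((l + 1 : ℕ) : ℤ))
      = (2 * (k : ℚ) + 1 - l) * rf (2 * k + 1 - l) := by
    have e1 := rf_mul (2 * (k : ℤ) + 1 - l)
    rw [show (2 * (k : ℤ) + 1 - ((l + 1 : ℕ) : ℤ)) = 2 * (k : ℤ) + 1 - l - 1 by push_cast; ring,
      ← e1]
    push_cast
    ring
  have r5 : rf (2 * (l : ℤ) + 3 - ((k + 1 : ℕ) : ℤ))
      = (2 * (l : ℚ) + 3 - k) * rf (2 * l + 3 - k) := by
    have e1 := rf_mul (2 * (l : ℤ) + 3 - k)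
    rw [show (2 * (l : ℤ) + 3 - ((k + 1 : ℕ) : ℤ)) = 2 * (l : ℤ) + 3 - k - 1 by push_cast; ring,
      ← e1]
    push_cast
    ring
  have r6 : rf (2 * ((k + 1 : ℕ) : ℤ) + 1 - l) = rf (2 * k + 3 - l) := by
    have : (2 * ((k + 1 : ℕ) : ℤ) + 1 - l) = 2 * k + 3 - l := by push_cast; ring
    rw [this]
  have f1 : ((k + (l + 1)).factorial : ℚ) = ((k : ℚ) + l + 1) * ((k + l).factorial : ℚ) := by
    rw [← add_assoc, Nat.factorial_succ]
    push_cast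
    ring
  have f2 : ((k + 1 + l).factorial : ℚ) = ((k : ℚ) + l + 1) * ((k + l).factorial : ℚ) := by
    rw [show k + 1 + l = k + l + 1 by ring, Nat.factorial_succ]
    push_cast
    ring
  have hU1 : U M l (k + 1) = (-2) * (2 * (k : ℚ) ^ 2 + k - M) * dM M k *
      (2 * k + 3 - l) * (2 * k + 2 - l) * X M l ((k : ℚ) + 1) * (((k : ℚ) + l + 1) *
        ((k + l).factorial : ℚ)) * ((2 * (l : ℚ) + 3 - k) * rf (2 * l + 3 - k)) *
          rf (2 * k + 3 - l) := by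
    unfold U
    rw [r5, r6, f2, ← hd]
    push_cast
    ring
  have hU0 : U M l k = (((k : ℚ) + 1) * (k + 2) - 2 * M) * (2 * k + 1 - l) * (2 * k - l) *
      X M l k * dM M k * ((k + l).factorial : ℚ) * rf (2 * l + 3 - k) *
        ((2 * (k : ℚ) + 2 - l) * (2 * (k : ℚ) + 3 - l) * rf (2 * k + 3 - l)) := by
    unfold U
    rw [r3]
  have hG0 : G k l = ((l : ℚ) - k) * (18 * k * l + 11 * (k + l) + 7) * ((k + l).factorial : ℚ) *
      ((2 * (l : ℚ) + 2 - k) * (2 * (l : ℚ) + 3 - k) * rf (2 * l + 3 - k)) *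
      ((2 * (k : ℚ) + 2 - l) * (2 * (k : ℚ) + 3 - l) * rf (2 * k + 3 - l)) := by
    unfold G
    rw [r1, r3]
  have hG1 : G k (l + 1) = ((l : ℚ) + 1 - k) * (18 * k * (l + 1) + 11 * (k + l + 1) + 7) *
      (((k : ℚ) + l + 1) * ((k + l).factorial : ℚ)) * rf (2 * l + 3 - k) *
      ((2 * (k : ℚ) + 1 - l) *
        ((2 * (k : ℚ) + 2 - l) * (2 * (k : ℚ) + 3 - l) * rf (2 * k + 3 - l))) := by
    unfold G
    rw [r2, r4, r3, f1]
    push_cast
    ring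
  rw [hU1, hU0, hG0, hG1, pM]
  linear_combination (dM M k * ((k + l).factorial : ℚ) * rf (2 * l + 3 - k) * rf (2 * k + 3 - l) *
    ((2 * (k : ℚ) + 2 - l) * (2 * (k : ℚ) + 3 - l))) * cert M l k

end Pool.Agent.MPe6b98e
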