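import Mathlib
import Pool.Agent.MPe6b98e.Orth

/-!
# Congruence between the Hankel-type matrix and `G` (MP_e6b98e_co)
-/

open Finset

namespace Pool.Agent.MPe6b98e

/-- Coefficients of `1/(1 - 3ts - t²s - ts²)`, padded: `Hp (k+2) (l+2) = [t^k s^l]`. -/
def Hp : ℕ → ℕ → ℚ
  | 0, _ => 0
  | 1, _ => 0
  | _ + 2, 0 => 0
  | _ + 2, 1 => 0
  | k + 2, l + 2 => (if k = 0 ∧ l = 0 then 1 else 0) + 3 * Hp (k + 1) (l + 1) + Hp k (l + 1)
      + Hp (k + 1) l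

@[simp] theorem Hp_zero (l : ℕ) : Hp 0 l = 0 := by simp [Hp]
@[simp] theorem Hp_one (l : ℕ) : Hp 1 l = 0 := by simp [Hp]
@[simp] theorem Hp_zero' (k : ℕ) : Hp k 0 = 0 := by
  rcases k with _ | _ | k <;> simp [Hp]
@[simp] theorem Hp_one' (k : ℕ) : Hp k 1 = 0 := by
  rcases k with _ | _ | k <;> simp [Hp]

theorem Hp_rec (k l : ℕ) : Hp (k + 2) (l + 2) = (if k = 0 ∧ l = 0 then 1 else 0)
    + 3 * Hp (k + 1) (l + 1) + Hp k (l + 1) + Hp (k + 1) l := by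
  rw [Hp]

theorem Hp_two (l : ℕ) : Hp 2 (l + 2) = if l = 0 then 1 else 0 := by
  rw [Hp_rec 0 l]; simp

theorem Hp_symm (k l : ℕ) : Hp k l = Hp l k := by
  suffices h : ∀ n k l, k + l ≤ n → Hp k l = Hp l k from h (k + l) k l le_rfl
  intro n
  induction n with
  | zero =>
    intro k l h
    obtain rfl : k = 0 := by omega
    obtain rfl : l = 0 := by omega
    rfl
  | succ n ih =>
    intro k l h
    rcases k with _ | _ | k
    · simp
    · simp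
    rcases l with _ | _ | l
    · simp
    · simp
    rw [show k + 1 + 1 = k + 2 by ring, show l + 1 + 1 = l + 2 by ring, Hp_rec, Hp_rec,
      ih (k + 1) (l + 1) (by omega), ih k (l + 1) (by omega), ih (k + 1) l (by omega)]
    have : (k = 0 ∧ l = 0) ↔ (l = 0 ∧ k = 0) := and_comm
    simp only [this]
    ring

/-- closed form of the coefficients of `(1+s)/D` -/
def ff (k l : ℕ) : ℚ := ((k + l + 1).factorial : ℚ) * rf (2 * l - k) * rf (2 * k - l + 1)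

theorem ff_rec (k l : ℕ) : ff (k + 2) (l + 2) = 3 * ff (k + 1) (l + 1) + ff k (l + 1)
    + ff (k + 1) l := by
  unfold ff
  have a1 : (2 * ((l + 2 : ℕ) : ℤ) - ((k + 2 : ℕ) : ℤ)) = 2 * l + 2 - k := by push_cast; ring
  have a2 : (2 * ((k + 2 : ℕ) : ℤ) - ((l + 2 : ℕ) : ℤ) + 1) = 2 * k + 3 - l := by
    push_cast; ring
  have a3 : (2 * ((l + 1 : ℕ) : ℤ) - ((k + 1 : ℕ) : ℤ)) = 2 * l + 2 - k - 1 := by
    push_cast; ring
  have a4 : (2 * ((k + 1 : ℕ) : ℤ) - ((l + 1 : ℕ) : ℤ) + 1) = 2 * k + 3 - l - 1 := by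
    push_cast; ring
  have a5 : (2 * ((l + 1 : ℕ) : ℤ) - (k : ℤ)) = 2 * l + 2 - k := by push_cast; ring
  have a6 : (2 * (k : ℤ) - ((l + 1 : ℕ) : ℤ) + 1) = 2 * k + 3 - l - 1 - 1 - 1 := by
    push_cast; ring
  have a7 : (2 * (l : ℤ) - ((k + 1 : ℕ) : ℤ)) = 2 * l + 2 - k - 1 - 1 - 1 := by
    push_cast; ring
  have a8 : (2 * ((k + 1 : ℕ) : ℤ) - (l : ℤ) + 1) = 2 * k + 3 - l := by push_cast; ring
  rw [a1, a2, a3, a4, a5, a6, a7, a8]
  have f1 : ((k + 2 + (l + 2) + 1).factorial : ℚ)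
      = ((k : ℚ) + l + 5) * (k + l + 4) * (k + l + 3) * ((k + l + 2).factorial : ℚ) := by
    rw [show k + 2 + (l + 2) + 1 = k + l + 2 + 1 + 1 + 1 by ring, Nat.factorial_succ,
      Nat.factorial_succ, Nat.factorial_succ]
    push_cast; ring
  have f2 : ((k + 1 + (l + 1) + 1).factorial : ℚ)
      = ((k : ℚ) + l + 3) * ((k + l + 2).factorial : ℚ) := by
    rw [show k + 1 + (l + 1) + 1 = k + l + 2 + 1 by ring, Nat.factorial_succ]
    push_cast; ring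
  rw [f1, f2, show k + (l + 1) + 1 = k + l + 2 by ring, show k + 1 + l + 1 = k + l + 2 by ring,
    ← rf_mul (2 * (l : ℤ) + 2 - k - 1 - 1), ← rf_mul (2 * (l : ℤ) + 2 - k - 1),
    ← rf_mul (2 * (l : ℤ) + 2 - k), ← rf_mul (2 * (k : ℤ) + 3 - l - 1 - 1),
    ← rf_mul (2 * (k : ℤ) + 3 - l - 1), ← rf_mul (2 * (k : ℤ) + 3 - l)]
  push_cast
  ring

theorem ff_zero_left (l : ℕ) : ff 0 l = if l = 0 ∨ l = 1 then 1 else 0 := by
  rcases l with _ | _ | l
  · simp [ff, rf]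
  · simp only [ff]
    rw [show (2 * ((0 : ℕ) : ℤ) - ((0 + 1 : ℕ) : ℤ) + 1) = ((0 : ℕ) : ℤ) by norm_num,
      show (2 * ((0 + 1 : ℕ) : ℤ) - ((0 : ℕ) : ℤ)) = ((2 : ℕ) : ℤ) by norm_num, rf_nat, rf_nat]
    norm_num [Nat.factorial]
  · simp only [ff]
    rw [rf_neg (n := (2 * ((0 : ℕ) : ℤ) - ((l + 1 + 1 : ℕ) : ℤ) + 1)) (by push_cast; omega)]
    simp

theorem ff_right_zero (k : ℕ) : ff k 0 = if k = 0 then 1 else 0 := by
  rcases k with _ | k
  · simp [ff, rf]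
  · simp only [ff]
    rw [rf_neg (n := (2 * ((0 : ℕ) : ℤ) - ((k + 1 : ℕ) : ℤ))) (by push_cast; omega)]
    simp

theorem ff_one_right (k : ℕ) : ff (k + 2) 1 = if k = 0 then 1 else 0 := by
  rcases k with _ | k
  · simp only [ff]
    rw [show (2 * ((1 : ℕ) : ℤ) - ((0 + 2 : ℕ) : ℤ)) = ((0 : ℕ) : ℤ) by norm_num,
      show (2 * ((0 + 2 : ℕ) : ℤ) - ((1 : ℕ) : ℤ) + 1) = ((4 : ℕ) : ℤ) by norm_num, rf_nat, rf_nat]
    norm_num [Nat.factorial]
  · simp only [ff]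
    rw [rf_neg (n := (2 * ((1 : ℕ) : ℤ) - ((k + 1 + 2 : ℕ) : ℤ))) (by push_cast; omega)]
    simp

theorem ff_one_left (l : ℕ) : ff 1 (l + 1) = 3 * ff 0 l + (if l = 1 ∨ l = 2 then 1 else 0) := by
  rw [ff_zero_left]
  rcases l with _ | _ | _ | l
  · simp only [ff]
    have e1 : (2 * ((0 + 1 : ℕ) : ℤ) - ((1 : ℕ) : ℤ)) = ((1 : ℕ) : ℤ) := by norm_num
    have e2 : (((1 : ℕ) : ℤ) + 1) = ((2 : ℕ) : ℤ) := by norm_num
    rw [e1, e2, rf_nat, rf_nat]
    norm_num [Nat.factorial]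
  · simp only [ff]
    rw [show (2 * ((0 + 1 + 1 : ℕ) : ℤ) - ((1 : ℕ) : ℤ)) = ((3 : ℕ) : ℤ) by norm_num,
      show (2 * ((1 : ℕ) : ℤ) - ((0 + 1 + 1 : ℕ) : ℤ) + 1) = ((1 : ℕ) : ℤ) by norm_num, rf_nat,
      rf_nat]
    norm_num [Nat.factorial]
  · simp only [ff]
    rw [show (2 * ((0 + 1 + 1 + 1 : ℕ) : ℤ) - ((1 : ℕ) : ℤ)) = ((5 : ℕ) : ℤ) by norm_num,
      show (2 * ((1 : ℕ) : ℤ) - ((0 + 1 + 1 + 1 : ℕ) : ℤ) + 1) = ((0 : ℕ) : ℤ) by norm_num, rf_nat,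
      rf_nat]
    norm_num [Nat.factorial]
  · simp only [ff]
    rw [rf_neg (n := (2 * ((1 : ℕ) : ℤ) - ((l + 1 + 1 + 1 + 1 : ℕ) : ℤ) + 1))
      (by push_cast; omega)]
    simp

/-- `H_{k,l} + H_{k,l-1}` in closed form -/
theorem Hp_add (k l : ℕ) : Hp (k + 2) (l + 2) + Hp (k + 2) (l + 1) = ff k l := by
  induction k using Nat.twoStepInduction generalizing l with
  | zero =>
    rw [ff_zero_left]
    rcases l with _ | _ | l
    · simp [Hp_two]
    · rw [show 0 + 1 + 1 = 0 + 2 by ring, show 0 + 1 + 2 = 1 + 2 by ring, Hp_two, Hp_two]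
      simp
    · rw [show l + 1 + 1 + 1 = (l + 1) + 2 by ring, Hp_two, Hp_two]
      simp
  | one =>
    rcases l with _ | l
    · rw [Hp_rec, ff_right_zero]
      simp
    · rw [ff_one_left, show 1 + 2 = (0 + 1) + 2 by ring, show l + 1 + 2 = (l + 1) + 2 by ring,
        show l + 1 + 1 = l + 2 by ring, Hp_rec (0 + 1) (l + 1), Hp_rec (0 + 1) l]
      simp only [zero_add, Hp_one]
      have h0 : Hp 2 (l + 2) + Hp 2 (l + 1) = ff 0 l := by
        rw [ff_zero_left]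
        rcases l with _ | _ | l
        · simp [Hp_two]
        · rw [show 0 + 1 + 1 = 0 + 2 by ring, show 0 + 1 + 2 = 1 + 2 by ring, Hp_two, Hp_two]
          simp
        · rw [show l + 1 + 1 + 1 = (l + 1) + 2 by ring, Hp_two, Hp_two]
          simp
      have h1 : Hp 2 (l + 1) + Hp 2 l = if l = 1 ∨ l = 2 then 1 else 0 := by
        rcases l with _ | _ | _ | l
        · simp
        · rw [show 0 + 1 + 1 = 0 + 2 by ring, Hp_two]; simp
        · rw [show 0 + 1 + 1 + 1 = 1 + 2 by ring, show 0 + 1 + 1 = 0 + 2 by ring, Hp_two, Hp_two]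
          simp
        · rw [show l + 1 + 1 + 1 + 1 = (l + 2) + 2 by ring,
            show l + 1 + 1 + 1 = (l + 1) + 2 by ring, Hp_two, Hp_two]
          simp
      rw [← h0, ← h1]
      simp only [one_ne_zero, false_and, if_false]
      ring
  | more k ih1 ih2 =>
    rcases l with _ | _ | l
    · rw [ff_right_zero, Hp_rec]
      simp
    · have h1 := ih1 0
      have h2 := ih2 0
      rw [ff_right_zero] at h1 h2
      rw [show 0 + 1 + 2 = 1 + 2 by ring, show 0 + 1 + 1 = 0 + 2 by ring, show 0 + 1 = 1 by ring,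
        Hp_rec (k + 2) 1, Hp_rec (k + 2) 0, ff_one_right]
      simp only [Hp_one', Hp_zero', zero_add, add_zero, one_ne_zero, and_false, if_false,
        mul_zero, show k + 1 = 0 ↔ False by simp] at h1 h2 ⊢
      simp only [show k + 2 = 0 ↔ False by simp, false_and, if_false]
      rw [show k + 2 + 1 = k + 1 + 2 by ring, show 1 + 1 = 2 by ring, h1, h2]
      simp
    · rw [show k + 2 + 2 = (k + 2) + 2 by ring, show l + 2 + 2 = (l + 2) + 2 by ring,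
        show l + 2 + 1 = (l + 1) + 2 by ring, Hp_rec (k + 2) (l + 2), Hp_rec (k + 2) (l + 1),
        ff_rec, ← ih2 (l + 1), ← ih1 (l + 1), ← ih2 l]
      simp only [show k + 2 = 0 ↔ False by simp, false_and, if_false]
      rw [show k + 2 + 1 = k + 1 + 2 by ring, show l + 2 + 1 = l + 1 + 2 by ring,
        show l + 1 + 1 = l + 2 by ring]
      ring

/-- `H_{k,l} + H_{k-1,l}` in closed form -/
theorem Hp_add' (k l : ℕ) : Hp (k + 2) (l + 2) + Hp (k + 1) (l + 2) = ff l k := by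
  rw [← Hp_add l k, Hp_symm (k + 2), Hp_symm (k + 1)]

/-- `G` in terms of the coefficients of `1/D` -/
theorem G_eq_H (k l : ℕ) : G k l = ((l : ℚ) - k) * Hp (k + 2) (l + 2)
    + ((l : ℚ) + 2 * k + 2) * Hp (k + 2) (l + 1) - ((k : ℚ) + 2 * l + 2) * Hp (k + 1) (l + 2)
    - 2 * ((l : ℚ) - k) * Hp (k + 1) (l + 1) := by
  rcases k with _ | k
  · simp only [zero_add, Hp_one, mul_zero, sub_zero]
    rcases l with _ | _ | l
    · simp [G]
    · rw [show 0 + 1 + 2 = 1 + 2 by ring, show 0 + 1 + 1 = 0 + 2 by ring, Hp_two, Hp_two]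
      simp only [G]
      have e1 : (2 * ((0 + 1 : ℕ) : ℤ) + 1 - ((0 : ℕ) : ℤ)) = ((3 : ℕ) : ℤ) := by norm_num
      have e2 : (2 * ((0 : ℕ) : ℤ) + 1 - ((0 + 1 : ℕ) : ℤ)) = ((0 : ℕ) : ℤ) := by norm_num
      rw [e1, e2, rf_nat, rf_nat]
      norm_num [Nat.factorial]
    · rw [show l + 1 + 1 + 2 = (l + 2) + 2 by ring, show l + 1 + 1 + 1 = (l + 1) + 2 by ring,
        Hp_two, Hp_two]
      simp only [G]
      rw [rf_neg (n := (2 * ((0 : ℕ) : ℤ) + 1 - ((l + 1 + 1 : ℕ) : ℤ))) (by push_cast; omega)]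
      simp
  · have h1 := Hp_add (k + 1) l
    have h2 := Hp_add' (k + 1) l
    have h3 := Hp_add k l
    have a1 : (2 * (l : ℤ) - ((k + 1 : ℕ) : ℤ)) = 2 * l - k - 1 := by push_cast; ring
    have a2 : (2 * ((k + 1 : ℕ) : ℤ) - (l : ℤ) + 1) = 2 * k - l + 3 := by push_cast; ring
    have a3 : (2 * ((k + 1 : ℕ) : ℤ) - (l : ℤ)) = 2 * k - l + 3 - 1 := by push_cast; ring
    have a4 : (2 * (l : ℤ) - ((k + 1 : ℕ) : ℤ) + 1) = 2 * l - k := by push_cast; ring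
    have a5 : (2 * (k : ℤ) - (l : ℤ) + 1) = 2 * k - l + 3 - 1 - 1 := by ring
    have a6 : (2 * (l : ℤ) + 1 - ((k + 1 : ℕ) : ℤ)) = 2 * l - k := by push_cast; ring
    have a7 : (2 * ((k + 1 : ℕ) : ℤ) + 1 - (l : ℤ)) = 2 * k - l + 3 := by push_cast; ring
    have f1 : ((k + 1 + l + 1).factorial : ℚ) = ((k : ℚ) + l + 2) * ((k + 1 + l).factorial : ℚ) := by
      rw [Nat.factorial_succ]; push_cast; ring
    have f2 : ((l + (k + 1) + 1).factorial : ℚ)
        = ((k : ℚ) + l + 2) * ((k + 1 + l).factorial : ℚ) := by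
      rw [show l + (k + 1) + 1 = k + 1 + l + 1 by ring, Nat.factorial_succ]; push_cast; ring
    have f3 : ((k + l + 1).factorial : ℚ) = ((k + 1 + l).factorial : ℚ) := by
      rw [show k + l + 1 = k + 1 + l by ring]
    unfold ff at h1 h2 h3
    rw [a1, a2, f1, ← rf_mul (2 * (l : ℤ) - k)] at h1
    rw [a3, a4, f2, ← rf_mul (2 * (k : ℤ) - l + 3)] at h2
    rw [a5, f3, ← rf_mul (2 * (k : ℤ) - l + 3 - 1), ← rf_mul (2 * (k : ℤ) - l + 3)] at h3
    unfold G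
    rw [a6, a7]
    push_cast at h1 h2 h3 ⊢
    rw [show k + 1 + 1 = k + 2 by ring] at *
    rw [show k + 2 + 1 = k + 1 + 2 by ring] at *
    generalize rf (2 * (l : ℤ) - k) = r at *
    generalize rf (2 * (k : ℤ) - l + 3) = r' at *
    generalize ((k + 1 + l).factorial : ℚ) = F at *
    generalize Hp (k + 1 + 2) (l + 2) = x1 at *
    generalize Hp (k + 1 + 2) (l + 1) = x2 at *
    generalize Hp (k + 2) (l + 2) = x3 at *
    generalize Hp (k + 2) (l + 1) = x4 at *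
    linear_combination (-((l : ℚ) + 2 * (k + 1) + 2)) * h1
      - (-(((k : ℚ) + 1) + 2 * l + 2) + 2 * ((l : ℚ) - (k + 1))) * h2
      + 2 * ((l : ℚ) - (k + 1)) * h3

end Pool.Agent.MPe6b98e
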