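import Mathlib

/-!
# The Pfaffian

Definition of the Pfaffian of a matrix indexed by `Fin (2n)`, its behaviour under congruence
`A ↦ B A Bᵀ`, and its value on tridiagonal skew-symmetric matrices.
-/

open Matrix Equiv Finset

namespace Pool.Agent.MPe6b98e

/-- the index `2i` (0-based) of `Fin (2n)` -/
def ev {n : ℕ} (i : Fin n) : Fin (2 * n) := ⟨2 * i.1, by omega⟩

/-- the index `2i+1` (0-based) of `Fin (2n)` -/
def od {n : ℕ} (i : Fin n) : Fin (2 * n) := ⟨2 * i.1 + 1, by omega⟩

/-- The Pfaffian of a `2n × 2n` matrix: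
`Pf A = (1 / (2^n n!)) ∑_{σ ∈ S_{2n}} sgn σ ∏_{i=1}^{n} A_{σ(2i-1), σ(2i)}`. -/
def pf {n : ℕ} (A : Matrix (Fin (2 * n)) (Fin (2 * n)) ℚ) : ℚ :=
  (1 / (2 ^ n * (n.factorial : ℚ))) *
    ∑ σ : Perm (Fin (2 * n)), ((Perm.sign σ : ℤ) : ℚ) * ∏ i : Fin n, A (σ (ev i)) (σ (od i))

/-- `Fin n × Fin 2 ≃ Fin (2n)` -/
def blk (n : ℕ) : Fin n × Fin 2 ≃ Fin (2 * n) where
  toFun p := ⟨2 * p.1.1 + p.2.1, by have := p.1.2; have := p.2.2; omega⟩
  invFun x := (⟨x.1 / 2, by have := x.2; omega⟩, ⟨x.1 % 2, by omega⟩)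
  left_inv := by
    rintro ⟨⟨i, hi⟩, ⟨b, hb⟩⟩
    simp only [Prod.mk.injEq, Fin.mk.injEq]
    omega
  right_inv := by
    rintro ⟨x, hx⟩
    simp only [Fin.mk.injEq]
    omega

@[simp] theorem blk_zero {n : ℕ} (i : Fin n) : blk n (i, 0) = ev i := rfl
@[simp] theorem blk_one {n : ℕ} (i : Fin n) : blk n (i, 1) = od i := rfl

theorem prod_split {n : ℕ} {M : Type*} [CommMonoid M] (h : Fin (2 * n) → M) :
    ∏ j : Fin (2 * n), h j = ∏ i : Fin n, h (ev i) * h (od i) := by
  rw [← (blk n).prod_comp, Fintype.prod_prod_type]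
  refine Finset.prod_congr rfl fun i _ => ?_
  rw [Fin.prod_univ_two]; rfl

/-- functions on `Fin (2n)` as `n`-tuples of pairs -/
def dbl (n : ℕ) (X : Type*) : (Fin (2 * n) → X) ≃ (Fin n → X × X) where
  toFun f := fun i => (f (ev i), f (od i))
  invFun g := fun j => if j.1 % 2 = 0 then (g ⟨j.1 / 2, by have := j.2; omega⟩).1
    else (g ⟨j.1 / 2, by have := j.2; omega⟩).2
  left_inv := by
    intro f
    funext ⟨j, hj⟩
    by_cases h : j % 2 = 0
    · simp only [h, if_true]
      congr 1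
      simp only [ev, Fin.mk.injEq]; omega
    · simp only [h, if_false]
      congr 1
      simp only [od, Fin.mk.injEq]; omega
  right_inv := by
    intro g
    funext i
    have h1 : (2 * i.1) % 2 = 0 := by omega
    have h2 : ¬ (2 * i.1 + 1) % 2 = 0 := by omega
    have h3 : (2 * i.1) / 2 = i.1 := by omega
    have h4 : (2 * i.1 + 1) / 2 = i.1 := by omega
    simp only [ev, od, h1, h2, h3, h4, if_true, if_false]

theorem prod_sum_dbl {n : ℕ} (F : Fin n → Fin (2 * n) → Fin (2 * n) → ℚ) :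
    ∏ i : Fin n, ∑ q : Fin (2 * n), ∑ p : Fin (2 * n), F i p q
      = ∑ f : Fin (2 * n) → Fin (2 * n), ∏ i : Fin n, F i (f (ev i)) (f (od i)) := by
  have h1 : ∀ i : Fin n, ∑ q : Fin (2 * n), ∑ p : Fin (2 * n), F i p q
      = ∑ x : Fin (2 * n) × Fin (2 * n), F i x.1 x.2 := by
    intro i
    rw [Finset.sum_comm, Fintype.sum_prod_type]
  simp only [h1]
  rw [Finset.prod_univ_sum, Fintype.piFinset_univ]
  exact (Equiv.sum_comp (dbl n (Fin (2 * n)))
    (fun g => ∏ i : Fin n, F i (g i).1 (g i).2)).symm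

/-- **Congruence rule** `Pf (B A Bᵀ) = det B · Pf A`. -/
theorem pf_congr {n : ℕ} (A B : Matrix (Fin (2 * n)) (Fin (2 * n)) ℚ) :
    pf (B * A * Bᵀ) = B.det * pf A := by
  unfold pf
  rw [mul_left_comm]
  congr 1
  have h1 : ∀ σ : Perm (Fin (2 * n)),
      ((Perm.sign σ : ℤ) : ℚ) * ∏ i : Fin n, (B * A * Bᵀ) (σ (ev i)) (σ (od i))
      = ∑ f : Fin (2 * n) → Fin (2 * n), (∏ i : Fin n, A (f (ev i)) (f (od i))) *
          (((Perm.sign σ : ℤ) : ℚ) * ∏ j : Fin (2 * n), B (σ j) (f j)) := by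
    intro σ
    have h2 : ∏ i : Fin n, (B * A * Bᵀ) (σ (ev i)) (σ (od i))
        = ∏ i : Fin n, ∑ q : Fin (2 * n), ∑ p : Fin (2 * n),
            B (σ (ev i)) p * A p q * B (σ (od i)) q := by
      refine Finset.prod_congr rfl fun i _ => ?_
      simp only [Matrix.mul_apply, Matrix.transpose_apply, Finset.sum_mul]
    rw [h2, prod_sum_dbl (fun i p q => B (σ (ev i)) p * A p q * B (σ (od i)) q), Finset.mul_sum]
    refine Finset.sum_congr rfl fun f _ => ?_
    rw [prod_split]
    simp only [Finset.prod_mul_distrib]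
    ring
  simp only [h1]
  rw [Finset.sum_comm]
  have h3 : ∀ f : Fin (2 * n) → Fin (2 * n),
      ∑ σ : Perm (Fin (2 * n)), (∏ i : Fin n, A (f (ev i)) (f (od i))) *
          (((Perm.sign σ : ℤ) : ℚ) * ∏ j : Fin (2 * n), B (σ j) (f j))
        = (∏ i : Fin n, A (f (ev i)) (f (od i))) * (B.submatrix id f).det := by
    intro f
    rw [Matrix.det_apply', ← Finset.mul_sum]
    rfl
  simp only [h3]
  have h4 : ∀ f : Fin (2 * n) → Fin (2 * n), ¬ Function.Bijective f →
      (B.submatrix id f).det = 0 := by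
    intro f hf
    have hinj : ¬ Function.Injective f := fun h => hf (Finite.injective_iff_bijective.1 h)
    rw [Function.Injective] at hinj
    push Not at hinj
    obtain ⟨a, b, hab, hne⟩ := hinj
    refine Matrix.det_zero_of_column_eq hne fun i => ?_
    simp [hab]
  rw [Finset.mul_sum]
  calc ∑ f : Fin (2 * n) → Fin (2 * n),
        (∏ i : Fin n, A (f (ev i)) (f (od i))) * (B.submatrix id f).det
      = ∑ f : Fin (2 * n) → Fin (2 * n) with Function.Bijective f,
        (∏ i : Fin n, A (f (ev i)) (f (od i))) * (B.submatrix id f).det := by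
        refine (Finset.sum_subset (Finset.filter_subset _ _) fun f _ hbij => ?_).symm
        rw [h4 f (by simpa using hbij), mul_zero]
    _ = ∑ τ : Perm (Fin (2 * n)),
        (∏ i : Fin n, A (τ (ev i)) (τ (od i))) * (B.submatrix id τ).det :=
        Finset.sum_bij (fun p h => Equiv.ofBijective p (Finset.mem_filter.1 h).2)
          (fun _ _ => Finset.mem_univ _)
          (fun _ _ _ _ h => by injection h)
          (fun b _ => ⟨b, Finset.mem_filter.2 ⟨Finset.mem_univ _, b.bijective⟩,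
            DFunLike.coe_injective rfl⟩) fun _ _ => rfl
    _ = ∑ τ : Perm (Fin (2 * n)),
        B.det * (((Perm.sign τ : ℤ) : ℚ) * ∏ i : Fin n, A (τ (ev i)) (τ (od i))) := by
        refine Finset.sum_congr rfl fun τ _ => ?_
        rw [Matrix.det_permute']
        ring

/-- a permutation of `Fin (2n)` preserving the blocks `{2i, 2i+1}` -/
def bperm {n : ℕ} (π : Perm (Fin n)) (ε : Fin n → Perm (Fin 2)) : Perm (Fin (2 * n)) :=
  (blk n).permCongr ((prodCongrLeft fun _ => π) * (prodCongrRight ε))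

theorem bperm_blk {n : ℕ} (π : Perm (Fin n)) (ε : Fin n → Perm (Fin 2)) (i : Fin n) (b : Fin 2) :
    bperm π ε (blk n (i, b)) = blk n (π i, ε i b) := by
  simp [bperm, Equiv.permCongr_apply, Equiv.prodCongrLeft, Equiv.prodCongrRight]

theorem sign_bperm {n : ℕ} (π : Perm (Fin n)) (ε : Fin n → Perm (Fin 2)) :
    Perm.sign (bperm π ε) = ∏ i, Perm.sign (ε i) := by
  rw [bperm, Perm.sign_permCongr, Perm.sign_mul, Perm.sign_prodCongrLeft,
    Perm.sign_prodCongrRight]
  simp

theorem bperm_injective {n : ℕ} :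
    Function.Injective (fun x : Perm (Fin n) × (Fin n → Perm (Fin 2)) => bperm x.1 x.2) := by
  rintro ⟨π, ε⟩ ⟨π', ε'⟩ h
  simp only at h
  have h1 : ∀ i b, (π i, ε i b) = (π' i, ε' i b) := by
    intro i b
    apply (blk n).injective
    rw [← bperm_blk, ← bperm_blk, h]
  have h2 : π = π' := by
    ext i
    have := h1 i 0
    rw [Prod.mk.injEq] at this
    rw [this.1]
  have h3 : ε = ε' := by
    funext i
    ext b
    have := h1 i b
    rw [Prod.mk.injEq] at this
    rw [this.2]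
  rw [h2, h3]

theorem fin_cases_blk {n : ℕ} (x : Fin (2 * n)) : (∃ i, x = ev i) ∨ (∃ i, x = od i) := by
  rcases Nat.even_or_odd' x.1 with ⟨c, hc | hc⟩
  · left
    exact ⟨⟨c, by have := x.2; omega⟩, by ext; simp [ev, hc]⟩
  · right
    exact ⟨⟨c, by have := x.2; omega⟩, by ext; simp [od, hc]⟩

theorem ev_injective {n : ℕ} {i j : Fin n} (h : ev i = ev j) : i = j := by
  have := congrArg Fin.val h
  simp only [ev] at this
  ext; omega

theorem od_injective {n : ℕ} {i j : Fin n} (h : od i = od j) : i = j := by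
  have := congrArg Fin.val h
  simp only [od] at this
  ext; omega

theorem ev_ne_od {n : ℕ} (i j : Fin n) : ev i ≠ od j := by
  intro h
  have := congrArg Fin.val h
  simp only [ev, od] at this
  omega

/-- the only perfect matching of a path is the standard one -/
theorem matching_unique {n : ℕ} (σ : Perm (Fin (2 * n)))
    (h : ∀ i : Fin n, (σ (ev i)).1 + 1 = (σ (od i)).1 ∨ (σ (od i)).1 + 1 = (σ (ev i)).1) :
    ∃ π : Perm (Fin n), ∃ ε : Fin n → Perm (Fin 2), bperm π ε = σ := by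
  classical
  set ι : Perm (Fin (2 * n)) := bperm 1 (fun _ => Equiv.swap 0 1) with hι
  have ι_ev : ∀ i, ι (ev i) = od i := by
    intro i
    rw [hι, ← blk_zero, bperm_blk]; simp
  have ι_od : ∀ i, ι (od i) = ev i := by
    intro i
    rw [hι, ← blk_one, bperm_blk]; simp
  set p : Fin (2 * n) → Fin (2 * n) := fun x => σ (ι (σ.symm x)) with hp
  have p_p : ∀ x, p (p x) = x := by
    intro x
    simp only [hp, Equiv.symm_apply_apply]
    rcases fin_cases_blk (σ.symm x) with ⟨i, hi⟩ | ⟨i, hi⟩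
    · rw [hi, ι_ev, ι_od, ← hi, Equiv.apply_symm_apply]
    · rw [hi, ι_od, ι_ev, ← hi, Equiv.apply_symm_apply]
  have p_adj : ∀ x, (p x).1 + 1 = x.1 ∨ x.1 + 1 = (p x).1 := by
    intro x
    simp only [hp]
    rcases fin_cases_blk (σ.symm x) with ⟨i, hi⟩ | ⟨i, hi⟩
    · have hx : x = σ (ev i) := by rw [← hi, Equiv.apply_symm_apply]
      rw [hi, ι_ev, hx]
      exact (h i).symm
    · have hx : x = σ (od i) := by rw [← hi, Equiv.apply_symm_apply]
      rw [hi, ι_od, hx]
      exact h i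
  have claim : ∀ j : ℕ, ∀ hj : j < n, p (ev ⟨j, hj⟩) = od ⟨j, hj⟩ := by
    intro j
    induction j with
    | zero =>
      intro hj
      rcases p_adj (ev ⟨0, hj⟩) with h1 | h1
      · simp [ev] at h1
      · ext
        rw [← h1]
        simp [ev, od]
    | succ j ih =>
      intro hj
      have hj' : j < n := by omega
      rcases p_adj (ev ⟨j + 1, hj⟩) with h1 | h1
      · exfalso
        have h2 : p (ev ⟨j + 1, hj⟩) = od ⟨j, hj'⟩ := by
          ext
          simp only [ev, od] at h1 ⊢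
          omega
        have h3 := p_p (ev ⟨j + 1, hj⟩)
        rw [h2, ← ih hj', p_p] at h3
        have := ev_injective h3
        simp at this
      · ext
        simp only [ev, od] at h1 ⊢
        omega
  have claim2 : ∀ j : Fin n, p (od j) = ev j := by
    intro j
    rw [← claim j.1 j.2, p_p]
  have pair : ∀ i, σ (od i) = p (σ (ev i)) := by
    intro i
    simp only [hp, Equiv.symm_apply_apply, ι_ev]
  have hex : ∀ i : Fin n, ∃ j : Fin n,
      (σ (ev i) = ev j ∧ σ (od i) = od j) ∨ (σ (ev i) = od j ∧ σ (od i) = ev j) := by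
    intro i
    rcases fin_cases_blk (σ (ev i)) with ⟨j, hj⟩ | ⟨j, hj⟩
    · refine ⟨j, Or.inl ⟨hj, ?_⟩⟩
      rw [pair, hj]
      exact claim j.1 j.2
    · refine ⟨j, Or.inr ⟨hj, ?_⟩⟩
      rw [pair, hj, claim2]
  choose π0 hπ0 using hex
  have hinj : Function.Injective π0 := by
    intro i i' hii
    have h1 := hπ0 i
    have h2 := hπ0 i'
    rw [← hii] at h2
    rcases h1 with ⟨a, b⟩ | ⟨a, b⟩ <;> rcases h2 with ⟨c, d⟩ | ⟨c, d⟩
    · exact ev_injective (σ.injective (a.trans c.symm))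
    · exact absurd (σ.injective (a.trans d.symm)) (ev_ne_od _ _)
    · exact absurd (σ.injective (a.trans d.symm)) (ev_ne_od _ _)
    · exact ev_injective (σ.injective (a.trans c.symm))
  set π : Perm (Fin n) := Equiv.ofBijective π0 (Finite.injective_iff_bijective.1 hinj) with hπ
  have hπa : ∀ i, π i = π0 i := fun i => rfl
  refine ⟨π, fun i => if σ (ev i) = ev (π0 i) then 1 else Equiv.swap 0 1, ?_⟩
  ext x
  congr 1
  rcases fin_cases_blk x with ⟨i, rfl⟩ | ⟨i, rfl⟩
  · rw [← blk_zero, bperm_blk, blk_zero, hπa]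
    rcases hπ0 i with ⟨a, b⟩ | ⟨a, b⟩
    · rw [if_pos a, a]; rfl
    · have : ¬ σ (ev i) = ev (π0 i) := by
        rw [a]; exact fun h => ev_ne_od _ _ h.symm
      rw [if_neg this, a]; rfl
  · rw [← blk_one, bperm_blk, blk_one, hπa]
    rcases hπ0 i with ⟨a, b⟩ | ⟨a, b⟩
    · rw [if_pos a, b]; rfl
    · have : ¬ σ (ev i) = ev (π0 i) := by
        rw [a]; exact fun h => ev_ne_od _ _ h.symm
      rw [if_neg this, b]; rfl

theorem perm_fin_two (τ : Perm (Fin 2)) : τ = 1 ∨ τ = Equiv.swap 0 1 := by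
  revert τ; decide

/-- **The Pfaffian of a tridiagonal skew-symmetric matrix.** -/
theorem pf_tridiag {n : ℕ} (T : Matrix (Fin (2 * n)) (Fin (2 * n)) ℚ)
    (hs : ∀ i j, T j i = - T i j) (ht : ∀ i j : Fin (2 * n), i.1 + 2 ≤ j.1 → T i j = 0) :
    pf T = ∏ i : Fin n, T (ev i) (od i) := by
  classical
  set P := ∏ i : Fin n, T (ev i) (od i) with hP
  have hterm : ∀ x : Perm (Fin n) × (Fin n → Perm (Fin 2)),
      ((Perm.sign (bperm x.1 x.2) : ℤ) : ℚ) *
        ∏ i : Fin n, T (bperm x.1 x.2 (ev i)) (bperm x.1 x.2 (od i)) = P := by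
    rintro ⟨π, ε⟩
    simp only
    rw [sign_bperm]
    have h1 : ∀ i, T (bperm π ε (ev i)) (bperm π ε (od i))
        = ((Perm.sign (ε i) : ℤ) : ℚ) * T (ev (π i)) (od (π i)) := by
      intro i
      rw [← blk_zero, ← blk_one, bperm_blk, bperm_blk]
      rcases perm_fin_two (ε i) with h | h
      · rw [h]; simp
      · rw [h]
        simp only [Equiv.swap_apply_left, Equiv.swap_apply_right, blk_zero, blk_one]
        rw [hs]
        simp
    simp only [h1, Finset.prod_mul_distrib]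
    rw [Units.coe_prod]
    push_cast
    rw [← mul_assoc, ← Finset.prod_mul_distrib]
    have h2 : ∀ i, ((Perm.sign (ε i) : ℤ) : ℚ) * ((Perm.sign (ε i) : ℤ) : ℚ) = 1 := by
      intro i
      rcases Int.units_eq_one_or (Perm.sign (ε i)) with h | h <;> rw [h] <;> simp
    simp only [h2, Finset.prod_const_one, one_mul]
    exact Equiv.prod_comp π (fun i => T (ev i) (od i))
  have hzero : ∀ σ : Perm (Fin (2 * n)),
      σ ∉ Finset.image (fun x : Perm (Fin n) × (Fin n → Perm (Fin 2)) => bperm x.1 x.2)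
        Finset.univ →
      ((Perm.sign σ : ℤ) : ℚ) * ∏ i : Fin n, T (σ (ev i)) (σ (od i)) = 0 := by
    intro σ hσ
    by_contra hne
    apply hσ
    have hprod : ∏ i : Fin n, T (σ (ev i)) (σ (od i)) ≠ 0 := right_ne_zero_of_mul hne
    rw [Finset.prod_ne_zero_iff] at hprod
    obtain ⟨π, ε, h⟩ := matching_unique σ (by
      intro i
      have h1 := hprod i (Finset.mem_univ i)
      by_contra hcon
      push Not at hcon
      apply h1
      rcases lt_trichotomy (σ (ev i)).1 (σ (od i)).1 with h | h | h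
      · exact ht _ _ (by omega)
      · have h2 : σ (ev i) = σ (od i) := Fin.ext h
        exact absurd (σ.injective h2) (ev_ne_od i i)
      · rw [hs, ht _ _ (by omega), neg_zero])
    rw [Finset.mem_image]
    exact ⟨(π, ε), Finset.mem_univ _, h⟩
  unfold pf
  rw [← Finset.sum_subset (Finset.subset_univ (Finset.image
    (fun x : Perm (Fin n) × (Fin n → Perm (Fin 2)) => bperm x.1 x.2) Finset.univ))
    (fun σ _ hσ => hzero σ hσ)]
  rw [Finset.sum_image (fun x _ y _ h => bperm_injective h)]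
  simp only [hterm]
  rw [Finset.sum_const, Finset.card_univ, Fintype.card_prod, Fintype.card_fun]
  simp only [Fintype.card_perm, Fintype.card_fin, nsmul_eq_mul]
  push_cast
  have hn : (n.factorial : ℚ) ≠ 0 := by exact_mod_cast n.factorial_ne_zero
  have h2 : ((Nat.factorial 2 : ℕ) : ℚ) = 2 := by norm_num [Nat.factorial]
  rw [h2]
  field_simp

/-- the usual normalisation: the Pfaffian of a `2 × 2` skew-symmetric matrix -/
theorem pf_two (A : Matrix (Fin (2 * 1)) (Fin (2 * 1)) ℚ) (hs : ∀ i j, A j i = - A i j) :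
    pf A = A 0 1 := by
  rw [pf_tridiag A hs]
  · simp; rfl
  · intro i j h
    have := j.2
    omega

end Pool.Agent.MPe6b98e
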