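import Mathlib
import Pool.Agent.MPe6b98e.Orth

/-!
# Vanishing and value of the sums (MP_e6b98e_co)
-/

open Finset

namespace Pool.Agent.MPe6b98e

theorem Q5_neg (M : ℚ) (hM : M ≤ -1) (l : ℕ) : Q5 M l < 0 := by
  have hl : (0 : ℚ) ≤ l := Nat.cast_nonneg l
  generalize (l : ℚ) = L at hl ⊢
  have ha : 0 ≤ (144*L^3+744*L^2+1300*L+772) * M^2 := by positivity
  have hb : 0 ≤ 216*L^5+1884*L^4+6368*L^3+10380*L^2+8108*L+2404 := by positivity
  have hb' := mul_le_mul_of_nonneg_left hM hb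
  have hc : 0 < 203*L^5+1759*L^4+5903*L^3+9545*L^2+7386*L+2164 := by positivity
  unfold Q5
  nlinarith

theorem Q5_ne (M : ℚ) (hM : M ≤ -1) (l : ℕ) : Q5 M ((l : ℚ) - 1) ≠ 0 := by
  cases l with
  | zero =>
    have h : Q5 M (((0 : ℕ) : ℚ) - 1) = -24 * (M * (3 * M + 1)) := by
      unfold Q5; push_cast; ring
    rw [h]
    have h2 : M * (3 * M + 1) ≠ 0 := mul_ne_zero (by linarith) (by linarith)
    exact mul_ne_zero (by norm_num) h2
  | succ l =>
    have h : (((l + 1 : ℕ) : ℚ) - 1) = (l : ℚ) := by push_cast; ring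
    rw [h]
    exact (Q5_neg M hM l).ne

theorem S_ext (M : ℚ) (l N : ℕ) (hN : 2 * l + 2 ≤ N) : S M l N = S M l (2 * l + 2) := by
  induction N, hN using Nat.le_induction with
  | base => rfl
  | succ N hN ih =>
    rw [S, Finset.sum_range_succ, ← S, ih, G_zero_of_lt hN]
    ring

theorem S_rec (M : ℚ) (hM : M ≤ -1) (l : ℕ) :
    ((l : ℚ) ^ 2 - l - 2 * M) * Q5 M l * S M l (2 * l + 4)
      + (2 * (2 * (l : ℚ) ^ 2 + 9 * l + 10 - M)) * Q5 M ((l : ℚ) - 1) *
        S M (l + 1) (2 * l + 4) = 0 := by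
  have h1 : ∑ k ∈ range (2 * l + 4), (U M l (k + 1) - U M l k) = U M l (2 * l + 4) - U M l 0 :=
    Finset.sum_range_sub _ _
  have h2 : U M l (2 * l + 4) = 0 := by
    unfold U
    rw [rf_neg (n := 2 * (l : ℤ) + 3 - ((2 * l + 4 : ℕ) : ℤ)) (by push_cast; omega)]
    ring
  have h3 : U M l 0 = 0 := by
    unfold U
    rcases Nat.lt_or_ge l 2 with h | h
    · interval_cases l <;> simp
    · rw [rf_neg (n := 2 * ((0 : ℕ) : ℤ) + 1 - (l : ℤ)) (by push_cast; omega)]
      ring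
  rw [h2, h3, sub_zero] at h1
  rw [← h1]
  unfold S
  rw [Finset.mul_sum, Finset.mul_sum, ← Finset.sum_add_distrib]
  exact Finset.sum_congr rfl fun k _ => step M hM l k

theorem S_zero (M : ℚ) (hM : M ≤ -1) (l : ℕ) : S M l (2 * l + 2) = 0 := by
  induction l with
  | zero =>
    simp [S, Finset.sum_range_succ, pM, G]
  | succ l ih =>
    have h := S_rec M hM l
    rw [S_ext M l (2 * l + 4) (by omega), ih, mul_zero, zero_add] at h
    have h2 : (2 * (2 * (l : ℚ) ^ 2 + 9 * l + 10 - M)) * Q5 M ((l : ℚ) - 1) ≠ 0 := by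
      refine mul_ne_zero ?_ (Q5_ne M hM l)
      have : (0 : ℚ) ≤ l := Nat.cast_nonneg l
      nlinarith
    have h3 := (mul_eq_zero.1 h).resolve_left h2
    rw [show 2 * (l + 1) + 2 = 2 * l + 4 by ring]
    exact h3

/-- numerator factor of the ratio of the coefficients -/
def NU (M : ℚ) (i : ℕ) : ℚ := (-2) * (2 * (i : ℚ) ^ 2 + i - M)

/-- denominator factor of the ratio of the coefficients -/
def DE (M : ℚ) (i : ℕ) : ℚ := ((i : ℚ) + 2) * (i + 3) - 2 * M

theorem dM_mul (M : ℚ) (k : ℕ) (h : ∀ i < k, DE M i ≠ 0) :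
    dM M k * ∏ i ∈ range k, DE M i = ∏ i ∈ range k, NU M i := by
  induction k with
  | zero => simp [dM]
  | succ k ih =>
    rw [Finset.prod_range_succ, Finset.prod_range_succ,
      ← ih (fun i hi => h i (by omega))]
    have h1 : dM M (k + 1) = NU M k / DE M k * dM M k := rfl
    rw [h1]
    have := h k (by omega)
    field_simp

/-- cleared sums -/
def PL (M : ℚ) (l n : ℕ) : ℚ :=
  ∑ k ∈ range (n + 1), pM M k * (∏ i ∈ range k, NU M i) * (∏ i ∈ Ico k n, DE M i) * G k l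

theorem PL_eq (M : ℚ) (l n : ℕ) (h : ∀ i < n, DE M i ≠ 0) :
    PL M l n = (∏ i ∈ range n, DE M i) * S M l (n + 1) := by
  unfold PL S
  rw [Finset.mul_sum]
  refine Finset.sum_congr rfl fun k hk => ?_
  have hk' : k ≤ n := by
    have := Finset.mem_range.1 hk
    omega
  rw [← dM_mul M k (fun i hi => h i (by omega)), ← Finset.prod_range_mul_prod_Ico _ hk']
  ring

open Polynomial in
theorem poly_vanish (p : ℚ[X]) (h : ∀ M : ℚ, M ≤ -1 → p.eval M = 0) (M : ℚ) : p.eval M = 0 := by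
  have h0 : p = 0 := by
    apply Polynomial.eq_zero_of_infinite_isRoot
    refine Set.Infinite.mono (s := Set.Iic (-1 : ℚ)) ?_ (Set.Iic_infinite _)
    intro x hx
    exact h x hx
  rw [h0, Polynomial.eval_zero]

open Polynomial in
/-- polynomial version of `pM` -/
noncomputable def ppM (k : ℕ) : ℚ[X] :=
  C (((k : ℚ) - 1) * (k * (k + 1))) - C (((k : ℚ) - 1) * 3 * (2 * k + 1)) * Polynomial.X

open Polynomial in
theorem eval_ppM (M : ℚ) (k : ℕ) : (ppM k).eval M = pM M k := by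
  simp only [ppM, pM, eval_sub, eval_mul, eval_C, eval_X]; ring

open Polynomial in
/-- polynomial version of `NU` -/
noncomputable def pNU (i : ℕ) : ℚ[X] := C ((-2) * (2 * (i : ℚ) ^ 2 + i)) + C 2 * Polynomial.X

open Polynomial in
theorem eval_pNU (M : ℚ) (i : ℕ) : (pNU i).eval M = NU M i := by
  simp only [pNU, NU, eval_add, eval_mul, eval_C, eval_X]; ring

open Polynomial in
/-- polynomial version of `DE` -/
noncomputable def pDE (i : ℕ) : ℚ[X] := C (((i : ℚ) + 2) * (i + 3)) - C 2 * Polynomial.X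

open Polynomial in
theorem eval_pDE (M : ℚ) (i : ℕ) : (pDE i).eval M = DE M i := by
  simp only [pDE, DE, eval_sub, eval_mul, eval_C, eval_X]

theorem DE_ne (M : ℚ) (hM : M ≤ -1) (i : ℕ) : DE M i ≠ 0 := by
  have : (0 : ℚ) ≤ i := Nat.cast_nonneg i
  unfold DE
  nlinarith

open Polynomial in
/-- The cleared sum vanishes identically. -/
theorem PL_zero (M : ℚ) (l : ℕ) : PL M l (2 * l + 1) = 0 := by
  set p : ℚ[X] := ∑ k ∈ range (2 * l + 1 + 1), ppM k * (∏ i ∈ range k, pNU i) *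
    (∏ i ∈ Ico k (2 * l + 1), pDE i) * C (G k l) with hp
  have hev : ∀ M : ℚ, p.eval M = PL M l (2 * l + 1) := by
    intro M
    rw [hp, PL, eval_finsetSum]
    refine Finset.sum_congr rfl fun k _ => ?_
    simp only [eval_mul, eval_prod, eval_ppM, eval_pNU, eval_pDE, eval_C]
  rw [← hev]
  apply poly_vanish
  intro M hM
  rw [hev, PL_eq M l _ (fun i _ => DE_ne M hM i), S_zero M hM, mul_zero]

/-- the value of the parameter -/
def M0 (m : ℕ) : ℚ := (m : ℚ) * (2 * m + 1)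

theorem NU_M0 (m i : ℕ) : NU (M0 m) i = (-2) * ((i : ℚ) - m) * (2 * i + 2 * m + 1) := by
  unfold NU M0; ring

theorem DE_M0 (m i : ℕ) : DE (M0 m) i = ((i : ℚ) + 2 - 2 * m) * (i + 2 * m + 3) := by
  unfold DE M0; ring

theorem dM_M0_zero (m k : ℕ) (h : m < k) : dM (M0 m) k = 0 := by
  induction k, h using Nat.le_induction with
  | base =>
    have h1 : dM (M0 m) (m + 1) = NU (M0 m) m / DE (M0 m) m * dM (M0 m) m := rfl
    change dM (M0 m) (m + 1) = 0
    rw [h1, NU_M0]; simp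
  | succ k hk ih =>
    have h1 : dM (M0 m) (k + 1) = NU (M0 m) k / DE (M0 m) k * dM (M0 m) k := rfl
    rw [h1, ih, mul_zero]

theorem DE_M0_ne (m i : ℕ) (h : i + 2 < 2 * m) : DE (M0 m) i ≠ 0 := by
  rw [DE_M0]
  have h1 : ((i : ℚ) + 2) < 2 * m := by exact_mod_cast h
  refine mul_ne_zero (by linarith) (by positivity)

/-- sums at the integral parameter: independent of the cut -/
theorem S_M0_ext (m l N : ℕ) (h : m + 1 ≤ N) : S (M0 m) l N = S (M0 m) l (m + 1) := by
  induction N, h using Nat.le_induction with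
  | base => rfl
  | succ N hN ih =>
    rw [S, Finset.sum_range_succ, ← S, ih, dM_M0_zero m N (by omega)]
    ring

/-- **Orthogonality.** -/
theorem S_M0_zero (m l : ℕ) (h : l + 2 ≤ m) : S (M0 m) l (m + 1) = 0 := by
  have h1 := PL_zero (M0 m) l
  have hDE : ∀ i < 2 * l + 1, DE (M0 m) i ≠ 0 := fun i hi => DE_M0_ne m i (by omega)
  rw [PL_eq _ _ _ hDE] at h1
  have h2 : (∏ i ∈ range (2 * l + 1), DE (M0 m) i) ≠ 0 := by
    rw [Finset.prod_ne_zero_iff]
    intro i hi
    exact hDE i (Finset.mem_range.1 hi)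
  have h3 : S (M0 m) l (2 * l + 2) = 0 := (mul_eq_zero.1 h1).resolve_left h2
  rcases le_total (m + 1) (2 * l + 2) with h4 | h4
  · rw [← S_M0_ext m l _ h4]; exact h3
  · rw [S_ext _ _ _ h4]; exact h3

open Polynomial in
/-- the identity at the first non-orthogonal index, with the vanishing factor removed -/
theorem RL_zero (M : ℚ) (l : ℕ) (hl : 1 ≤ l) :
    PL M l (2 * l) = pM M (2 * l + 1) * (∏ i ∈ (range (2 * l + 1)).erase (l + 1), NU M i) *
      G (2 * l + 1) l := by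
  set p : ℚ[X] := (∑ k ∈ range (2 * l + 1), ppM k * (∏ i ∈ range k, pNU i) *
    (∏ i ∈ Ico k (2 * l), pDE i) * C (G k l)) -
      ppM (2 * l + 1) * (∏ i ∈ (range (2 * l + 1)).erase (l + 1), pNU i) * C (G (2 * l + 1) l)
    with hp
  have hev : ∀ M : ℚ, p.eval M = PL M l (2 * l) -
      pM M (2 * l + 1) * (∏ i ∈ (range (2 * l + 1)).erase (l + 1), NU M i) *
      G (2 * l + 1) l := by
    intro M
    rw [hp, PL, eval_sub, eval_finsetSum]
    congr 1
    · refine Finset.sum_congr rfl fun k _ => ?_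
      simp only [eval_mul, eval_prod, eval_ppM, eval_pNU, eval_pDE, eval_C]
    · simp only [eval_mul, eval_prod, eval_ppM, eval_pNU, eval_C]
  rw [← sub_eq_zero, ← hev]
  apply poly_vanish
  intro M hM
  rw [hev]
  have h1 := PL_zero M l
  rw [PL, Finset.sum_range_succ] at h1
  have hNU : ∏ i ∈ range (2 * l + 1), NU M i
      = NU M (l + 1) * ∏ i ∈ (range (2 * l + 1)).erase (l + 1), NU M i :=
    (Finset.mul_prod_erase _ _ (Finset.mem_range.2 (by omega))).symm
  have hDE : ∀ k ∈ range (2 * l + 1), pM M k * (∏ i ∈ range k, NU M i) *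
      (∏ i ∈ Ico k (2 * l + 1), DE M i) * G k l
      = DE M (2 * l) * (pM M k * (∏ i ∈ range k, NU M i) *
      (∏ i ∈ Ico k (2 * l), DE M i) * G k l) := by
    intro k hk
    have hk' := Finset.mem_range.1 hk
    rw [Finset.prod_Ico_succ_top (by omega)]
    ring
  rw [Finset.sum_congr rfl hDE, ← Finset.mul_sum, hNU, Finset.Ico_self, Finset.prod_empty] at h1
  have e1 : NU M (l + 1) = - DE M (2 * l) := by
    unfold NU DE; push_cast; ring
  rw [e1] at h1
  have hne := DE_ne M hM (2 * l)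
  have h2 : DE M (2 * l) * (PL M l (2 * l) -
      pM M (2 * l + 1) * (∏ i ∈ (range (2 * l + 1)).erase (l + 1), NU M i) *
      G (2 * l + 1) l) = 0 := by
    rw [PL]
    linear_combination h1
  exact (mul_eq_zero.1 h2).resolve_left hne

theorem G_top (l : ℕ) : G (2 * l + 1) l = - (4 * l + 3) := by
  unfold G
  have e1 : (2 * (l : ℤ) + 1 - ((2 * l + 1 : ℕ) : ℤ)) = ((0 : ℕ) : ℤ) := by push_cast; ring
  have e2 : (2 * ((2 * l + 1 : ℕ) : ℤ) + 1 - (l : ℤ)) = ((3 * l + 3 : ℕ) : ℤ) := by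
    push_cast; ring
  have e3 : ((3 * l + 3).factorial : ℚ)
      = (3 * (l : ℚ) + 3) * ((3 * (l : ℚ) + 2) * ((3 * l + 1).factorial : ℚ)) := by
    rw [show 3 * l + 3 = (3 * l + 1) + 1 + 1 by ring, Nat.factorial_succ, Nat.factorial_succ]
    push_cast
    ring
  rw [e1, e2, rf_nat, rf_nat, show 2 * l + 1 + l = 3 * l + 1 by ring, e3, Nat.factorial_zero]
  have hf : ((3 * l + 1).factorial : ℚ) ≠ 0 := by exact_mod_cast Nat.factorial_ne_zero _
  generalize ((3 * l + 1).factorial : ℚ) = f at hf ⊢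
  have h1 : (3 * (l : ℚ) + 2) ≠ 0 := by positivity
  have h2 : (3 * (l : ℚ) + 3) ≠ 0 := by positivity
  push_cast
  field_simp
  ring

end Pool.Agent.MPe6b98e
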