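import Mathlib
import Pool.Agent.MPe6b98e.Value

/-!
# Closed form of the non-vanishing sums (MP_e6b98e_co)
-/

open Finset

namespace Pool.Agent.MPe6b98e

/-- the super-diagonal entry `τ_{l+1}` -/
def tauL (l : ℕ) : ℚ :=
  (3 * l + 4) * ((6 * l + 6).factorial : ℚ) * ((2 * l + 1).factorial : ℚ) /
    (4 * ((4 * l + 2).factorial : ℚ) * ((4 * l + 5).factorial : ℚ))

theorem odd_prod (a n : ℕ) :
    (∏ j ∈ range n, (2 * ((a : ℚ) + j) + 1)) * 2 ^ n * ((a + n).factorial : ℚ) *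
      ((2 * a).factorial : ℚ) = ((2 * (a + n)).factorial : ℚ) * (a.factorial : ℚ) := by
  induction n with
  | zero => simp; ring
  | succ n ih =>
    rw [Finset.prod_range_succ, show 2 * (a + (n + 1)) = 2 * (a + n) + 1 + 1 by ring,
      Nat.factorial_succ, Nat.factorial_succ, ← add_assoc, Nat.factorial_succ (a + n)]
    push_cast
    linear_combination (2 * ((a : ℚ) + n) + 1 + 1) * (2 * ((a : ℚ) + n) + 1) * ih

theorem asc_prod (b n : ℕ) :
    (∏ j ∈ range n, ((b : ℚ) + 1 + j)) * (b.factorial : ℚ) = ((b + n).factorial : ℚ) := by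
  induction n with
  | zero => simp
  | succ n ih =>
    rw [Finset.prod_range_succ, ← add_assoc, Nat.factorial_succ]
    push_cast
    linear_combination ((b : ℚ) + n + 1) * ih

theorem sub_prod (L : ℕ) :
    ∏ j ∈ range L, ((j : ℚ) - L) = (-1) ^ L * ∏ j ∈ range L, ((j : ℚ) + 1) := by
  rw [← Finset.prod_range_reflect (fun j => ((j : ℚ) + 1)) L]
  have h : ∀ j ∈ range L, ((j : ℚ) - L) = (-1) * (((L - 1 - j : ℕ) : ℚ) + 1) := by
    intro j hj
    have hj' := Finset.mem_range.1 hj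
    have h1 : L - 1 - j = L - (j + 1) := by omega
    rw [h1, Nat.cast_sub (by omega)]
    push_cast
    ring
  rw [Finset.prod_congr rfl h, Finset.prod_mul_distrib, Finset.prod_const, Finset.card_range]

/-- **The value of the first non-vanishing sum.** -/
theorem S_value (l : ℕ) (hl : 1 ≤ l) :
    S (M0 (l + 1)) l (l + 2) = - (tauL l * (pM (M0 (l + 1)) (l + 1) * dM (M0 (l + 1)) (l + 1))) := by
  obtain ⟨L, rfl⟩ : ∃ L, l = L + 1 := ⟨l - 1, by omega⟩
  set m := L + 1 + 1 with hm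
  have hmQ : (m : ℚ) = L + 2 := by rw [hm]; push_cast; ring
  have h1 := RL_zero (M0 m) (L + 1) (by omega)
  have hDE : ∀ i < 2 * (L + 1), DE (M0 m) i ≠ 0 := fun i hi => DE_M0_ne m i (by omega)
  rw [PL_eq _ _ _ hDE, S_M0_ext m (L + 1) _ (by omega), G_top] at h1
  have hd := dM_mul (M0 m) m (fun i hi => hDE i (by omega))
  -- split the products
  have hD : ∏ i ∈ range (2 * (L + 1)), DE (M0 m) i
      = (∏ i ∈ range m, DE (M0 m) i) * ∏ i ∈ Ico m (2 * (L + 1)), DE (M0 m) i :=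
    (Finset.prod_range_mul_prod_Ico _ (by omega)).symm
  have hN : ∏ i ∈ (range (2 * (L + 1) + 1)).erase (L + 1 + 1), NU (M0 m) i
      = (∏ i ∈ range m, NU (M0 m) i) * ∏ i ∈ Ico (m + 1) (2 * (L + 1) + 1), NU (M0 m) i := by
    have he : (range (2 * (L + 1) + 1)).erase (L + 1 + 1)
        = (range m) ∪ (Ico (m + 1) (2 * (L + 1) + 1)) := by
      ext i
      simp only [Finset.mem_erase, Finset.mem_range, Finset.mem_union, Finset.mem_Ico]
      omega
    rw [he, Finset.prod_union]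
    rw [Finset.disjoint_left]
    intro i hi hi'
    simp only [Finset.mem_range, Finset.mem_Ico] at hi hi'
    omega
  have hP : (∏ i ∈ range m, DE (M0 m) i) ≠ 0 := by
    rw [Finset.prod_ne_zero_iff]
    intro i hi
    exact hDE i (by have := Finset.mem_range.1 hi; omega)
  have hD2 : ∏ i ∈ Ico m (2 * (L + 1)), DE (M0 m) i
      = (-1) ^ L * (∏ j ∈ range L, ((j : ℚ) + 1)) * ∏ j ∈ range L, ((3 * L + 8 : ℕ) + 1 + (j : ℚ)) := by
    rw [Finset.prod_Ico_eq_prod_range, show 2 * (L + 1) - m = L by omega, ← sub_prod,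
      ← Finset.prod_mul_distrib]
    refine Finset.prod_congr rfl fun j _ => ?_
    rw [DE_M0, hmQ]
    push_cast
    rw [hmQ]
    ring
  have hN2 : ∏ i ∈ Ico (m + 1) (2 * (L + 1) + 1), NU (M0 m) i
      = (-2) ^ L * (∏ j ∈ range L, ((j : ℚ) + 1)) *
        ∏ j ∈ range L, (2 * (((2 * L + 5 : ℕ) : ℚ) + j) + 1) := by
    rw [Finset.prod_Ico_eq_prod_range, show 2 * (L + 1) + 1 - (m + 1) = L by omega]
    have h2 : (-2 : ℚ) ^ L = ∏ _j ∈ range L, (-2 : ℚ) := by simp
    rw [h2, ← Finset.prod_mul_distrib, ← Finset.prod_mul_distrib]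
    refine Finset.prod_congr rfl fun j _ => ?_
    rw [NU_M0, hmQ]
    push_cast
    rw [hmQ]
    ring
  have hO := odd_prod (2 * L + 5) L
  have hB := asc_prod (3 * L + 8) L
  rw [hD, hN, hD2, hN2, ← hd] at h1
  set A := ∏ j ∈ range L, ((j : ℚ) + 1) with hA
  set B := ∏ j ∈ range L, (((3 * L + 8 : ℕ) : ℚ) + 1 + (j : ℚ)) with hBd
  set O := ∏ j ∈ range L, (2 * (((2 * L + 5 : ℕ) : ℚ) + j) + 1) with hOd
  have hA0 : A ≠ 0 := by
    rw [hA, Finset.prod_ne_zero_iff]
    intro j _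
    positivity
  have hB0 : B ≠ 0 := by
    rw [hBd, Finset.prod_ne_zero_iff]
    intro j _
    positivity
  have e2 : (-2 : ℚ) ^ L = (-1) ^ L * 2 ^ L := by rw [← mul_pow]; norm_num
  have hs : ((-1 : ℚ)) ^ L ≠ 0 := pow_ne_zero _ (by norm_num)
  rw [e2] at h1
  -- the key scalar identity
  have p1 : pM (M0 m) (2 * (L + 1) + 1)
      = -(2 * ((L : ℚ) + 1) * (L + 2) * (4 * L + 9) * (6 * L + 11)) := by
    unfold pM M0; rw [hmQ]; push_cast; ring
  have p2 : pM (M0 m) m = -(((L : ℚ) + 1) * (L + 2) * (3 * L + 8) * (4 * L + 9)) := by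
    unfold pM M0; rw [hmQ]; ring
  have key : 2 * (4 * (L : ℚ) + 7) * (6 * L + 11) * (2 ^ L * O)
      = tauL (L + 1) * (3 * L + 8) * B := by
    have g1 : ((6 * (L + 1) + 6).factorial : ℚ)
        = (6 * (L : ℚ) + 12) * (6 * L + 11) * ((2 * (2 * L + 5 + L)).factorial : ℚ) := by
      rw [show 6 * (L + 1) + 6 = 2 * (2 * L + 5 + L) + 1 + 1 by ring, Nat.factorial_succ,
        Nat.factorial_succ]
      push_cast; ring
    have g2 : ((2 * L + 5).factorial : ℚ)
        = (2 * (L : ℚ) + 5) * (2 * L + 4) * ((2 * (L + 1) + 1).factorial : ℚ) := by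
      rw [show 2 * L + 5 = 2 * (L + 1) + 1 + 1 + 1 by ring, Nat.factorial_succ,
        Nat.factorial_succ]
      push_cast; ring
    have g3 : ((3 * L + 8).factorial : ℚ)
        = (3 * (L : ℚ) + 8) * (3 * L + 7) * (3 * L + 6) * ((2 * L + 5 + L).factorial : ℚ) := by
      rw [show 3 * L + 8 = 2 * L + 5 + L + 1 + 1 + 1 by ring, Nat.factorial_succ,
        Nat.factorial_succ, Nat.factorial_succ]
      push_cast; ring
    have g4 : ((2 * (2 * L + 5)).factorial : ℚ)
        = (4 * (L : ℚ) + 10) * ((4 * (L + 1) + 5).factorial : ℚ) := by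
      rw [show 2 * (2 * L + 5) = 4 * (L + 1) + 5 + 1 by ring, Nat.factorial_succ]
      push_cast; ring
    have g5 : ((3 * L + 8 + L).factorial : ℚ)
        = (4 * (L : ℚ) + 8) * (4 * L + 7) * ((4 * (L + 1) + 2).factorial : ℚ) := by
      rw [show 3 * L + 8 + L = 4 * (L + 1) + 2 + 1 + 1 by ring, Nat.factorial_succ,
        Nat.factorial_succ]
      push_cast; ring
    rw [g2, g4] at hO
    rw [g3, g5] at hB
    unfold tauL
    rw [g1]
    have n1 : ((2 * L + 5 + L).factorial : ℚ) ≠ 0 := by exact_mod_cast Nat.factorial_ne_zero _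
    have n2 : ((4 * (L + 1) + 5).factorial : ℚ) ≠ 0 := by exact_mod_cast Nat.factorial_ne_zero _
    have n3 : ((4 * (L + 1) + 2).factorial : ℚ) ≠ 0 := by exact_mod_cast Nat.factorial_ne_zero _
    generalize ((2 * L + 5 + L).factorial : ℚ) = F1 at *
    generalize ((4 * (L + 1) + 5).factorial : ℚ) = F2 at *
    generalize ((4 * (L + 1) + 2).factorial : ℚ) = F3 at *
    generalize ((2 * (2 * L + 5 + L)).factorial : ℚ) = F4 at *
    generalize ((2 * (L + 1) + 1).factorial : ℚ) = F5 at *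
    have hO' : 2 ^ L * O = F4 * ((2 * (L : ℚ) + 5) * (2 * L + 4) * F5) /
        (F1 * ((4 * (L : ℚ) + 10) * F2)) := by
      have : (4 * (L : ℚ) + 10) ≠ 0 := by positivity
      field_simp
      linear_combination hO
    have hB' : B = (4 * (L : ℚ) + 8) * (4 * L + 7) * F3 /
        ((3 * (L : ℚ) + 8) * (3 * L + 7) * (3 * L + 6) * F1) := by
      have k1 : (3 * (L : ℚ) + 8) ≠ 0 := by positivity
      have k2 : (3 * (L : ℚ) + 7) ≠ 0 := by positivity
      have k3 : (3 * (L : ℚ) + 6) ≠ 0 := by positivity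
      rw [eq_div_iff (by positivity)]
      linear_combination hB
    rw [hO', hB']
    have k0 : (4 * (L : ℚ) + 10) ≠ 0 := by positivity
    have k1 : (3 * (L : ℚ) + 8) ≠ 0 := by positivity
    have k2 : (3 * (L : ℚ) + 7) ≠ 0 := by positivity
    have k3 : (3 * (L : ℚ) + 6) ≠ 0 := by positivity
    push_cast
    field_simp
    ring
  rw [p1] at h1
  rw [p2]
  have hne : (∏ i ∈ range m, DE (M0 m) i) * ((-1) ^ L * A * B) ≠ 0 :=
    mul_ne_zero hP (mul_ne_zero (mul_ne_zero hs hA0) hB0)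
  apply mul_left_cancel₀ hne
  rw [h1]
  push_cast
  linear_combination (((L : ℚ) + 1) * (L + 2) * (4 * L + 9) * (dM (M0 m) m) *
    (∏ i ∈ range m, DE (M0 m) i) * ((-1) ^ L * A)) * key

end Pool.Agent.MPe6b98e
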