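import Mathlib
import Pool.Agent.MPe6b98e.Cong

/-!
# The transition matrix (MP_e6b98e_co)
-/

open Finset

namespace Pool.Agent.MPe6b98e

/-- the ternary Catalan numbers `a_m = binom(3m, m)/(2m+1)` -/
def tc (m : ℕ) : ℚ := ((3 * m).choose m : ℚ) / (2 * m + 1)

/-- transition coefficients -/
def bb (i k : ℕ) : ℚ := ((3 * i + 2).choose (2 * i + 2 + k) : ℚ)

/-- auxiliary combination -/
def cc (i k : ℕ) : ℚ := bb i k - 2 * bb i (k + 1)

theorem bb_zero {i k : ℕ} (h : i < k) : bb i k = 0 := by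
  unfold bb
  rw [Nat.choose_eq_zero_of_lt (by omega)]
  simp

theorem bb_self (i : ℕ) : bb i i = 1 := by
  unfold bb
  rw [show 2 * i + 2 + i = 3 * i + 2 by ring, Nat.choose_self]
  simp

theorem cc_zero {i k : ℕ} (h : i < k) : cc i k = 0 := by
  unfold cc
  rw [bb_zero h, bb_zero (by omega)]
  ring

theorem bb_rec (i k : ℕ) : ((i : ℚ) - k) * bb i k = (2 * (i : ℚ) + k + 3) * bb i (k + 1) := by
  rcases lt_or_ge i k with h | h
  · rw [bb_zero h, bb_zero (by omega)]; ring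
  · have h1 := Nat.choose_succ_right_eq (3 * i + 2) (2 * i + 2 + k)
    have h2 : (3 * i + 2) - (2 * i + 2 + k) = i - k := by omega
    rw [h2] at h1
    have h3 : (((3 * i + 2).choose (2 * i + 2 + k + 1) : ℕ) : ℚ) * ((2 * i + 2 + k + 1 : ℕ) : ℚ)
        = (((3 * i + 2).choose (2 * i + 2 + k) : ℕ) : ℚ) * ((i - k : ℕ) : ℚ) := by
      exact_mod_cast h1
    rw [Nat.cast_sub h] at h3
    unfold bb
    rw [show 2 * i + 2 + (k + 1) = 2 * i + 2 + k + 1 by ring]
    push_cast at h3 ⊢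
    linear_combination -h3

theorem choose_three (n m : ℕ) : (n + 3).choose (m + 3)
    = n.choose m + 3 * n.choose (m + 1) + 3 * n.choose (m + 2) + n.choose (m + 3) := by
  rw [Nat.choose_succ_succ (n + 2) (m + 2), Nat.choose_succ_succ (n + 1) (m + 1),
    Nat.choose_succ_succ (n + 1) (m + 2), Nat.choose_succ_succ n m,
    Nat.choose_succ_succ n (m + 1), Nat.choose_succ_succ n (m + 2)]
  simp only [Nat.succ_eq_add_one, add_assoc, Nat.reduceAdd]
  ring

/-- `bb` one step to the left -/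
def b1 (i k : ℕ) : ℚ := ((3 * i + 2).choose (2 * i + 1 + k) : ℚ)

theorem b1_succ (i k : ℕ) : b1 i (k + 1) = bb i k := by
  unfold b1 bb
  rw [show 2 * i + 1 + (k + 1) = 2 * i + 2 + k by ring]

theorem b1_zero (i : ℕ) : b1 i 0 = 2 * bb i 0 := by
  unfold b1 bb
  have h1 := Nat.choose_succ_right_eq (3 * i + 2) (2 * i + 1)
  have h2 : (3 * i + 2) - (2 * i + 1) = i + 1 := by omega
  rw [h2] at h1
  have h3 : (((3 * i + 2).choose (2 * i + 1 + 1) : ℕ) : ℚ) * ((2 * i + 1 + 1 : ℕ) : ℚ)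
      = (((3 * i + 2).choose (2 * i + 1) : ℕ) : ℚ) * ((i + 1 : ℕ) : ℚ) := by
    exact_mod_cast h1
  push_cast at h3
  have h4 : ((i : ℚ) + 1) ≠ 0 := by positivity
  apply mul_left_cancel₀ h4
  simp only [add_zero]
  linear_combination -h3

theorem bb_succ (i k : ℕ) : bb (i + 1) k = b1 i k + 3 * bb i k + 3 * bb i (k + 1)
    + bb i (k + 2) := by
  unfold b1 bb
  rw [show 3 * (i + 1) + 2 = (3 * i + 2) + 3 by ring,
    show 2 * (i + 1) + 2 + k = (2 * i + 1 + k) + 3 by ring, choose_three,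
    show 2 * i + 1 + k + 1 = 2 * i + 2 + k by ring,
    show 2 * i + 1 + k + 2 = 2 * i + 2 + (k + 1) by ring,
    show 2 * i + 1 + k + 3 = 2 * i + 2 + (k + 2) by ring]
  push_cast
  ring

theorem cc_succ_zero (i : ℕ) : cc (i + 1) 0 = 3 * cc i 0 + 3 * cc i 1 + cc i 2 := by
  unfold cc
  rw [bb_succ, bb_succ, b1_zero, b1_succ]
  ring

theorem cc_succ_succ (i k : ℕ) : cc (i + 1) (k + 1)
    = cc i k + 3 * cc i (k + 1) + 3 * cc i (k + 2) + cc i (k + 3) := by
  unfold cc
  rw [bb_succ, bb_succ, b1_succ, b1_succ]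
  ring

theorem sum_shift (N : ℕ) (u : ℕ → ℚ) (h0 : u 0 = 0) (hN : u N = 0) :
    ∑ k ∈ range N, u k = ∑ k ∈ range N, u (k + 1) := by
  have h1 := Finset.sum_range_succ u N
  have h2 := Finset.sum_range_succ' u N
  rw [h1, hN, h0, add_zero, add_zero] at h2
  exact h2

theorem sum_cc_succ (i N : ℕ) (hN : i + 2 ≤ N) (ψ : ℕ → ℚ) (h0 : ψ 0 = 0) (h1 : ψ 1 = 0) :
    ∑ k ∈ range N, cc (i + 1) k * ψ (k + 2)
      = ∑ k ∈ range N, cc i k * (ψ (k + 3) + 3 * ψ (k + 2) + 3 * ψ (k + 1) + ψ k) := by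
  set c' : ℕ → ℚ := fun k => if k = 0 then 0 else cc i (k - 1) with hc'
  have c0 : c' 0 = 0 := by simp [hc']
  have cs : ∀ k, c' (k + 1) = cc i k := by intro k; simp [hc']
  have hcN : ∀ k, N ≤ k → c' k = 0 := by
    intro k hk
    obtain ⟨j, rfl⟩ : ∃ j, k = j + 1 := ⟨k - 1, by omega⟩
    rw [cs, cc_zero (by omega)]
  have hexp : ∀ k, cc (i + 1) k = c' k + 3 * c' (k + 1) + 3 * c' (k + 2) + c' (k + 3) := by
    intro k
    rcases k with _ | k
    · rw [c0, cc_succ_zero, cs, cs 1, cs 2]; ring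
    · rw [cc_succ_succ, cs, cs (k + 1), show k + 1 + 2 = (k + 2) + 1 by ring,
        show k + 1 + 3 = (k + 3) + 1 by ring, cs, cs]
  have s1 : ∑ k ∈ range N, c' k * ψ (k + 2) = ∑ k ∈ range N, c' (k + 1) * ψ (k + 3) :=
    sum_shift N (fun k => c' k * ψ (k + 2)) (by simp [c0]) (by simp [hcN N le_rfl])
  have s2 : ∑ k ∈ range N, c' (k + 2) * ψ (k + 2) = ∑ k ∈ range N, c' (k + 1) * ψ (k + 1) :=
    (sum_shift N (fun k => c' (k + 1) * ψ (k + 1)) (by simp [h1])
      (by simp [hcN (N + 1) (by omega)])).symm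
  have s3 : ∑ k ∈ range N, c' (k + 3) * ψ (k + 2) = ∑ k ∈ range N, c' (k + 2) * ψ (k + 1) :=
    (sum_shift N (fun k => c' (k + 2) * ψ (k + 1)) (by simp [h1])
      (by simp [hcN (N + 2) (by omega)])).symm
  have s4 : ∑ k ∈ range N, c' (k + 2) * ψ (k + 1) = ∑ k ∈ range N, c' (k + 1) * ψ k :=
    (sum_shift N (fun k => c' (k + 1) * ψ k) (by simp [h0])
      (by simp [hcN (N + 1) (by omega)])).symm
  have e1 : ∑ k ∈ range N, cc (i + 1) k * ψ (k + 2)
      = ∑ k ∈ range N, c' k * ψ (k + 2) + 3 * ∑ k ∈ range N, c' (k + 1) * ψ (k + 2)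
        + 3 * ∑ k ∈ range N, c' (k + 2) * ψ (k + 2) + ∑ k ∈ range N, c' (k + 3) * ψ (k + 2) := by
    rw [Finset.mul_sum, Finset.mul_sum, ← Finset.sum_add_distrib, ← Finset.sum_add_distrib,
      ← Finset.sum_add_distrib]
    refine Finset.sum_congr rfl fun k _ => ?_
    rw [hexp]; ring
  have e2 : ∑ k ∈ range N, cc i k * (ψ (k + 3) + 3 * ψ (k + 2) + 3 * ψ (k + 1) + ψ k)
      = ∑ k ∈ range N, c' (k + 1) * ψ (k + 3) + 3 * ∑ k ∈ range N, c' (k + 1) * ψ (k + 2)
        + 3 * ∑ k ∈ range N, c' (k + 1) * ψ (k + 1) + ∑ k ∈ range N, c' (k + 1) * ψ k := by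
    rw [Finset.mul_sum, Finset.mul_sum, ← Finset.sum_add_distrib, ← Finset.sum_add_distrib,
      ← Finset.sum_add_distrib]
    refine Finset.sum_congr rfl fun k _ => ?_
    rw [cs]; ring
  rw [e1, e2, s1, s2, s3, s4]

/-- the Hankel form -/
def hk (N i j : ℕ) : ℚ :=
  ∑ k ∈ range N, ∑ l ∈ range N, cc i k * cc j l * Hp (k + 2) (l + 2)

theorem hk_step (N i j : ℕ) (hi : i + 2 ≤ N) (hj : j + 2 ≤ N) :
    hk N (i + 1) j = hk N i (j + 1) := by
  have e1 : hk N (i + 1) j = ∑ l ∈ range N, cc j l * ∑ k ∈ range N, cc i k *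
      (Hp (k + 3) (l + 2) + 3 * Hp (k + 2) (l + 2) + 3 * Hp (k + 1) (l + 2) + Hp k (l + 2)) := by
    unfold hk
    rw [Finset.sum_comm]
    refine Finset.sum_congr rfl fun l _ => ?_
    rw [← sum_cc_succ i N hi (fun k => Hp k (l + 2)) (by simp) (by simp), Finset.mul_sum]
    refine Finset.sum_congr rfl fun k _ => ?_
    ring
  have e2 : hk N i (j + 1) = ∑ k ∈ range N, cc i k * ∑ l ∈ range N, cc j l *
      (Hp (k + 2) (l + 3) + 3 * Hp (k + 2) (l + 2) + 3 * Hp (k + 2) (l + 1) + Hp (k + 2) l) := by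
    unfold hk
    refine Finset.sum_congr rfl fun k _ => ?_
    rw [← sum_cc_succ j N hj (fun l => Hp (k + 2) l) (by simp) (by simp), Finset.mul_sum]
    refine Finset.sum_congr rfl fun l _ => ?_
    ring
  rw [e1, e2]
  simp only [Finset.mul_sum]
  rw [Finset.sum_comm]
  refine Finset.sum_congr rfl fun k _ => Finset.sum_congr rfl fun l _ => ?_
  have r1 : Hp (k + 3) (l + 2) = 3 * Hp (k + 2) (l + 1) + Hp (k + 1) (l + 1) + Hp (k + 2) l := by
    rw [show k + 3 = (k + 1) + 2 by ring, Hp_rec (k + 1) l]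
    simp
  have r2 : Hp (k + 2) (l + 3) = 3 * Hp (k + 1) (l + 2) + Hp k (l + 2) + Hp (k + 1) (l + 1) := by
    rw [show l + 3 = (l + 1) + 2 by ring, Hp_rec k (l + 1)]
    simp
  rw [r1, r2]
  ring

theorem cc_zero_left (k : ℕ) : cc 0 k = if k = 0 then 1 else 0 := by
  rcases k with _ | k
  · unfold cc
    rw [bb_self, bb_zero (by omega)]
    simp
  · rw [cc_zero (by omega)]
    simp

theorem cc_right_zero (j : ℕ) : cc j 0 = tc (j + 1) := by
  unfold cc tc bb
  have h1 := Nat.choose_succ_right_eq (3 * j + 2) (2 * j + 2)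
  have h2 : (3 * j + 2) - (2 * j + 2) = j := by omega
  rw [h2] at h1
  have h3 : (((3 * j + 2).choose (2 * j + 2 + 1) : ℕ) : ℚ) * ((2 * j + 2 + 1 : ℕ) : ℚ)
      = (((3 * j + 2).choose (2 * j + 2) : ℕ) : ℚ) * (j : ℚ) := by
    exact_mod_cast h1
  have h4 : (3 * (j + 1)).choose (j + 1) * (j + 1) = (3 * j + 3) * (3 * j + 2).choose j := by
    have := Nat.add_one_mul_choose_eq (3 * j + 2) j
    rw [show 3 * (j + 1) = 3 * j + 2 + 1 by ring]
    linarith
  have h5 : (3 * j + 2).choose j = (3 * j + 2).choose (2 * j + 2) :=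
    Nat.choose_symm_of_eq_add (by ring)
  rw [h5] at h4
  have h6 : (((3 * (j + 1)).choose (j + 1) : ℕ) : ℚ) * ((j : ℚ) + 1)
      = (3 * (j : ℚ) + 3) * (((3 * j + 2).choose (2 * j + 2) : ℕ) : ℚ) := by
    exact_mod_cast h4
  have k1 : ((j : ℚ) + 1) ≠ 0 := by positivity
  have h7 : (((3 * (j + 1)).choose (j + 1) : ℕ) : ℚ)
      = 3 * (((3 * j + 2).choose (2 * j + 2) : ℕ) : ℚ) := by
    apply mul_right_cancel₀ k1
    rw [h6]; ring
  rw [h7]
  have h8 : (((3 * j + 2).choose (2 * j + 2 + (0 + 1)) : ℕ) : ℚ)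
      = (((3 * j + 2).choose (2 * j + 2) : ℕ) : ℚ) * (j : ℚ) / (2 * j + 3) := by
    rw [eq_div_iff (by positivity)]
    rw [show 2 * j + 2 + (0 + 1) = 2 * j + 2 + 1 by ring]
    push_cast at h3
    linear_combination h3
  rw [h8]
  push_cast
  simp only [add_zero]
  field_simp
  ring

theorem hk_zero (N j : ℕ) (hN : 1 ≤ N) (_hj : j + 1 ≤ N) : hk N 0 j = tc (j + 1) := by
  unfold hk
  rw [Finset.sum_eq_single_of_mem 0 (Finset.mem_range.2 (by omega))]
  · rw [Finset.sum_eq_single_of_mem 0 (Finset.mem_range.2 (by omega))]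
    · rw [cc_zero_left, cc_right_zero, zero_add, Hp_two]
      simp
    · intro l _ hl
      rw [zero_add, Hp_two, if_neg hl, mul_zero]
  · intro k _ hk
    refine Finset.sum_eq_zero fun l _ => ?_
    rw [cc_zero_left, if_neg hk]
    ring

theorem hk_eq (N i j : ℕ) (h : i + j + 2 ≤ N) : hk N i j = tc (i + j + 1) := by
  induction i generalizing j with
  | zero => rw [hk_zero N j (by omega) (by omega), zero_add]
  | succ i ih =>
    rw [hk_step N i j (by omega) (by omega), ih (j + 1) (by omega)]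
    congr 1; ring

/-- the transformed form -/
def gk (N i j : ℕ) : ℚ := ∑ k ∈ range N, ∑ l ∈ range N, bb i k * G k l * bb j l

theorem gk_eq_hk (N i j : ℕ) (hi : i + 1 ≤ N) (hj : j + 1 ≤ N) :
    gk N i j = ((j : ℚ) - i) * hk N i j := by
  have e0 : gk N i j
      = ∑ k ∈ range N, ∑ l ∈ range N, bb i k * bb j l * (((l : ℚ) - k) * Hp (k + 2) (l + 2))
        + ∑ k ∈ range N, ∑ l ∈ range N, bb i k * bb j l * (((l : ℚ) + 2 * k + 2) *
            Hp (k + 2) (l + 1))
        - ∑ k ∈ range N, ∑ l ∈ range N, bb i k * bb j l * (((k : ℚ) + 2 * l + 2) *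
            Hp (k + 1) (l + 2))
        - ∑ k ∈ range N, ∑ l ∈ range N, bb i k * bb j l * (2 * ((l : ℚ) - k) *
            Hp (k + 1) (l + 1)) := by
    unfold gk
    rw [← Finset.sum_add_distrib, ← Finset.sum_sub_distrib, ← Finset.sum_sub_distrib]
    refine Finset.sum_congr rfl fun k _ => ?_
    rw [← Finset.sum_add_distrib, ← Finset.sum_sub_distrib, ← Finset.sum_sub_distrib]
    refine Finset.sum_congr rfl fun l _ => ?_
    rw [G_eq_H]
    ring
  have e1 : ∑ k ∈ range N, ∑ l ∈ range N, bb i k * bb j l * (((l : ℚ) + 2 * k + 2) *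
            Hp (k + 2) (l + 1))
      = ∑ k ∈ range N, ∑ l ∈ range N, bb i k * bb j (l + 1) * (((l : ℚ) + 1 + 2 * k + 2) *
            Hp (k + 2) (l + 2)) := by
    refine Finset.sum_congr rfl fun k _ => ?_
    rw [sum_shift N (fun l => bb i k * bb j l * (((l : ℚ) + 2 * k + 2) * Hp (k + 2) (l + 1)))
      (by simp) (by simp [bb_zero (show j < N by omega)])]
    refine Finset.sum_congr rfl fun l _ => ?_
    push_cast
    rfl
  have e2 : ∑ k ∈ range N, ∑ l ∈ range N, bb i k * bb j l * (((k : ℚ) + 2 * l + 2) *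
            Hp (k + 1) (l + 2))
      = ∑ k ∈ range N, ∑ l ∈ range N, bb i (k + 1) * bb j l * (((k : ℚ) + 1 + 2 * l + 2) *
            Hp (k + 2) (l + 2)) := by
    rw [sum_shift N (fun k => ∑ l ∈ range N, bb i k * bb j l * (((k : ℚ) + 2 * l + 2) *
            Hp (k + 1) (l + 2)))
      (by simp) (by simp [bb_zero (show i < N by omega)])]
    refine Finset.sum_congr rfl fun k _ => Finset.sum_congr rfl fun l _ => ?_
    push_cast
    rfl
  have e3 : ∑ k ∈ range N, ∑ l ∈ range N, bb i k * bb j l * (2 * ((l : ℚ) - k) *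
            Hp (k + 1) (l + 1))
      = ∑ k ∈ range N, ∑ l ∈ range N, bb i (k + 1) * bb j (l + 1) * (2 * ((l : ℚ) - k) *
            Hp (k + 2) (l + 2)) := by
    rw [sum_shift N (fun k => ∑ l ∈ range N, bb i k * bb j l * (2 * ((l : ℚ) - k) *
            Hp (k + 1) (l + 1)))
      (by simp) (by simp [bb_zero (show i < N by omega)])]
    refine Finset.sum_congr rfl fun k _ => ?_
    rw [sum_shift N (fun l => bb i (k + 1) * bb j l * (2 * ((l : ℚ) - ((k + 1 : ℕ) : ℚ)) *
            Hp (k + 1 + 1) (l + 1)))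
      (by simp) (by simp [bb_zero (show j < N by omega)])]
    refine Finset.sum_congr rfl fun l _ => ?_
    push_cast
    ring
  rw [e0, e1, e2, e3]
  unfold hk
  rw [← Finset.sum_add_distrib, ← Finset.sum_sub_distrib, ← Finset.sum_sub_distrib,
    Finset.mul_sum]
  refine Finset.sum_congr rfl fun k _ => ?_
  rw [← Finset.sum_add_distrib, ← Finset.sum_sub_distrib, ← Finset.sum_sub_distrib,
    Finset.mul_sum]
  refine Finset.sum_congr rfl fun l _ => ?_
  have hb := bb_rec i k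
  have hb' := bb_rec j l
  unfold cc
  -- termwise identity
  linear_combination (exp := 1) (Hp (k + 2) (l + 2)) * (bb j l * hb - bb i k * hb'
    - 2 * bb j (l + 1) * hb + 2 * bb i (k + 1) * hb')

/-- `L G Lᵀ` is the given matrix -/
theorem gk_eq (N i j : ℕ) (hi : i + 1 ≤ N) (hj : j + 1 ≤ N) :
    gk N i j = ((j : ℚ) - i) * tc (i + j + 1) := by
  have h1 : gk N i j = gk (N + i + j + 2) i j := by
    unfold gk
    have hsub : range N ⊆ range (N + i + j + 2) := by
      intro x hx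
      rw [Finset.mem_range] at *
      omega
    rw [← Finset.sum_subset hsub]
    · refine Finset.sum_congr rfl fun k _ => ?_
      rw [← Finset.sum_subset hsub]
      intro l _ hl
      rw [Finset.mem_range, not_lt] at hl
      rw [bb_zero (show j < l by omega), mul_zero]
    · intro k _ hk
      rw [Finset.mem_range, not_lt] at hk
      refine Finset.sum_eq_zero fun l _ => ?_
      rw [bb_zero (show i < k by omega)]
      ring
  rw [h1, gk_eq_hk _ _ _ (by omega) (by omega), hk_eq _ _ _ (by omega)]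

end Pool.Agent.MPe6b98e
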