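import Mathlib
import Pool.Agent.MPe6b98e.Pf
import Pool.Agent.MPe6b98e.Tau
import Pool.Agent.MPe6b98e.Trans

/-!
# Evaluation of the Pfaffian (MP_e6b98e_co)
-/

open Finset Matrix

namespace Pool.Agent.MPe6b98e

/-- the matrix `((j - i) a_{i+j+1})` with 0-based indices -/
def MA (n : ℕ) : Matrix (Fin (2 * n)) (Fin (2 * n)) ℚ :=
  fun i j => ((j : ℚ) - i) * tc (i + j + 1)

/-- the matrix of `G` -/
def MG (n : ℕ) : Matrix (Fin (2 * n)) (Fin (2 * n)) ℚ := fun i j => G i j

/-- the transition matrix -/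
def ML (n : ℕ) : Matrix (Fin (2 * n)) (Fin (2 * n)) ℚ := fun i k => bb i k

theorem ML_det (n : ℕ) : (ML n).det = 1 := by
  rw [Matrix.det_of_isLowerTriangular (ML n)]
  · simp [ML, bb_self]
  · intro i j hij
    have : i < j := hij
    exact bb_zero this

theorem MA_eq (n : ℕ) : MA n = ML n * MG n * (ML n)ᵀ := by
  ext i j
  have h := gk_eq (2 * n) i j (by have := i.2; omega) (by have := j.2; omega)
  rw [MA, ← h]
  unfold gk
  rw [Matrix.mul_apply]
  simp only [Matrix.mul_apply, Matrix.transpose_apply, Finset.sum_mul, ML, MG]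
  rw [Finset.sum_comm, ← Fin.sum_univ_eq_sum_range
    (fun l => ∑ k ∈ range (2 * n), bb (i : ℕ) k * G k l * bb (j : ℕ) l) (2 * n)]
  refine Finset.sum_congr rfl fun l _ => ?_
  rw [← Fin.sum_univ_eq_sum_range (fun k => bb (i : ℕ) k * G k l * bb (j : ℕ) l) (2 * n)]

theorem pf_MA (n : ℕ) : pf (MA n) = pf (MG n) := by
  rw [MA_eq, pf_congr, ML_det, one_mul]

/-- the leading coefficient of the `m`-th vector -/
def lc (m : ℕ) : ℚ := pM (M0 m) m * dM (M0 m) m

theorem lc_ne (m : ℕ) (hm : 2 ≤ m) : lc m ≠ 0 := by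
  have h1 : pM (M0 m) m = -(((m : ℚ) - 1) * m * (3 * m + 2) * (4 * m + 1)) := by
    unfold pM M0; ring
  have hm' : (2 : ℚ) ≤ m := by exact_mod_cast hm
  have h2 : pM (M0 m) m ≠ 0 := by
    rw [h1]
    apply neg_ne_zero.2
    have : (0 : ℚ) < ((m : ℚ) - 1) * m * (3 * m + 2) * (4 * m + 1) := by
      have : (0 : ℚ) < (m : ℚ) - 1 := by linarith
      positivity
    exact this.ne'
  have h3 := dM_mul (M0 m) m (fun i hi => DE_M0_ne m i (by omega))
  have h4 : ∏ i ∈ range m, NU (M0 m) i ≠ 0 := by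
    rw [Finset.prod_ne_zero_iff]
    intro i hi
    have hi' : (i : ℚ) < m := by exact_mod_cast Finset.mem_range.1 hi
    rw [NU_M0]
    refine mul_ne_zero (mul_ne_zero (by norm_num) (by linarith)) (by positivity)
  have h5 : dM (M0 m) m ≠ 0 := by
    intro h
    rw [h, zero_mul] at h3
    exact h4 h3.symm
  exact mul_ne_zero h2 h5

/-- the vectors of the tridiagonalising basis -/
def vb (m k : ℕ) : ℚ :=
  if m ≤ 1 then (if k = m then 1 else 0) else pM (M0 m) k * dM (M0 m) k / lc m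

theorem vb_zero {m k : ℕ} (h : m < k) : vb m k = 0 := by
  unfold vb
  split_ifs with h1 h2
  · omega
  · rfl
  · rw [dM_M0_zero m k h]; simp

theorem vb_self (m : ℕ) : vb m m = 1 := by
  unfold vb
  by_cases h1 : m ≤ 1
  · rw [if_pos h1, if_pos rfl]
  · rw [if_neg h1]
    exact div_self (lc_ne m (by omega))

/-- rows of `B G` -/
def row (N m l : ℕ) : ℚ := ∑ k ∈ range N, vb m k * G k l

theorem row_eq (N m l : ℕ) (hm : 2 ≤ m) (hN : m + 1 ≤ N) :
    row N m l = S (M0 m) l (m + 1) / lc m := by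
  rw [← S_M0_ext m l N hN]
  unfold row S vb
  rw [Finset.sum_div]
  refine Finset.sum_congr rfl fun k _ => ?_
  rw [if_neg (by omega)]
  ring

theorem row_zero (N m l : ℕ) (hl : l + 2 ≤ m) (hN : m + 1 ≤ N) : row N m l = 0 := by
  rw [row_eq N m l (by omega) hN, S_M0_zero m l hl, zero_div]

theorem row_value (N l : ℕ) (hN : l + 2 ≤ N) : row N (l + 1) l = - tauL l := by
  rcases Nat.eq_zero_or_pos l with rfl | hl
  · unfold row
    rw [Finset.sum_eq_single_of_mem 1 (Finset.mem_range.2 (by omega))]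
    · have := G_top 0
      rw [show 2 * 0 + 1 = 1 by ring] at this
      rw [this]
      unfold vb tauL
      norm_num [Nat.factorial]
    · intro k _ hk
      unfold vb
      simp [hk]
  · rw [row_eq N (l + 1) l (by omega) (by omega), S_value l hl]
    have h1 := lc_ne (l + 1) (by omega)
    have h2 : pM (M0 (l + 1)) (l + 1) * dM (M0 (l + 1)) (l + 1) = lc (l + 1) := rfl
    rw [h2, neg_div, mul_div_assoc, div_self h1, mul_one]

/-- the basis change -/
def MB (n : ℕ) : Matrix (Fin (2 * n)) (Fin (2 * n)) ℚ := fun i k => vb i k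

theorem MB_det (n : ℕ) : (MB n).det = 1 := by
  rw [Matrix.det_of_isLowerTriangular (MB n)]
  · simp [MB, vb_self]
  · intro i j hij
    have : i < j := hij
    exact vb_zero this

theorem MT_apply (n : ℕ) (i j : Fin (2 * n)) :
    (MB n * MG n * (MB n)ᵀ) i j = ∑ l ∈ range (2 * n), row (2 * n) i l * vb j l := by
  rw [Matrix.mul_apply, ← Fin.sum_univ_eq_sum_range (fun l => row (2 * n) i l * vb j l)]
  refine Finset.sum_congr rfl fun l _ => ?_
  rw [Matrix.transpose_apply, Matrix.mul_apply, row,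
    ← Fin.sum_univ_eq_sum_range (fun k => vb i k * G k l)]
  rfl

theorem MT_skew (n : ℕ) (i j : Fin (2 * n)) :
    (MB n * MG n * (MB n)ᵀ) j i = - (MB n * MG n * (MB n)ᵀ) i j := by
  have h1 : (MG n)ᵀ = - MG n := by
    ext i j
    simp only [Matrix.transpose_apply, Matrix.neg_apply, MG]
    exact G_skew _ _
  have h2 : (MB n * MG n * (MB n)ᵀ)ᵀ = - (MB n * MG n * (MB n)ᵀ) := by
    rw [Matrix.transpose_mul, Matrix.transpose_mul, Matrix.transpose_transpose, h1,
      Matrix.neg_mul, Matrix.mul_neg, Matrix.mul_assoc]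
  have h3 := congrFun (congrFun h2 i) j
  rw [Matrix.transpose_apply, Matrix.neg_apply] at h3
  exact h3

theorem MT_zero (n : ℕ) (i j : Fin (2 * n)) (h : j.1 + 2 ≤ i.1) :
    (MB n * MG n * (MB n)ᵀ) i j = 0 := by
  rw [MT_apply]
  refine Finset.sum_eq_zero fun l _ => ?_
  rcases le_or_gt l j.1 with h1 | h1
  · rw [row_zero (2 * n) i l (by omega) (by have := i.2; omega), zero_mul]
  · rw [vb_zero h1, mul_zero]

theorem MT_value (n : ℕ) (i j : Fin (2 * n)) (h : j.1 + 1 = i.1) :
    (MB n * MG n * (MB n)ᵀ) i j = - tauL j := by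
  rw [MT_apply, Finset.sum_eq_single_of_mem j.1 (Finset.mem_range.2 j.2)]
  · rw [vb_self, ← h, row_value (2 * n) j (by have := i.2; omega), mul_one]
  · intro l _ hl
    rcases lt_or_gt_of_ne hl with h1 | h1
    · rw [row_zero (2 * n) i l (by omega) (by have := i.2; omega), zero_mul]
    · rw [vb_zero h1, mul_zero]

/-- **The Pfaffian as a product.** -/
theorem pf_MA_eq (n : ℕ) : pf (MA n) = ∏ i : Fin n, tauL (2 * i) := by
  rw [pf_MA, ← one_mul (pf (MG n)), ← MB_det n, ← pf_congr,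
    pf_tridiag _ (MT_skew n) (fun i j h => by
      rw [MT_skew, MT_zero n j i h, neg_zero])]
  refine Finset.prod_congr rfl fun i _ => ?_
  rw [MT_skew, MT_value n (od i) (ev i) rfl, neg_neg]
  rfl

end Pool.Agent.MPe6b98e
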